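import Pool.Agent.Lib.MP_17a322_ntTA.Defs

/-!
Families of varieties over an abelian variety `A` in `ℙ^m × ... × ℙ^m` (`q` factors), the hyperplane sections
`D_i : y_(i, 0) = 0` and the orders of vanishing of forms along them: definitions.
-/

set_option autoImplicit false

universe u

namespace UTD

open MvPolynomial UTA
open Pool.Agent.Lib.MP_17a322_nt.VA Pool.Agent.Lib.MP_17a322_nt.SL

/-- The saturation of the ideal `I`: the polynomials which are in `I` locally at all the points of
`ℙ^m × ... × ℙ^m`. -/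
def sat {L : Type u} [Field L] {q m : ℕ} (I : Ideal (MvPolynomial (Fin q × Fin (m + 1)) L)) :
    Ideal (MvPolynomial (Fin q × Fin (m + 1)) L) where
  carrier := {f | ∀ l : Fin q → Fin (m + 1), ∃ c : ℕ, (∏ t, X (t, l t)) ^ c * f ∈ I}
  zero_mem' := fun l => ⟨0, by rw [mul_zero]; exact I.zero_mem⟩
  add_mem' := by
    intro f g hf hg l
    obtain ⟨a, ha⟩ := hf l
    obtain ⟨b, hb⟩ := hg l
    refine ⟨a + b, ?_⟩
    have h1 : (∏ t, X (t, l t)) ^ (a + b) * (f + g) =
        (∏ t, X (t, l t)) ^ b * ((∏ t, X (t, l t)) ^ a * f) +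
          (∏ t, X (t, l t)) ^ a * ((∏ t, X (t, l t)) ^ b * g) := by ring
    rw [h1]
    exact I.add_mem (I.mul_mem_left _ ha) (I.mul_mem_left _ hb)
  smul_mem' := by
    intro r f hf l
    obtain ⟨a, ha⟩ := hf l
    refine ⟨a, ?_⟩
    rw [smul_eq_mul, mul_left_comm]
    exact I.mul_mem_left _ ha

/-- The dimension of the space of the forms of multidegree `M` on the closed subscheme with the ideal `I` which
vanish to order at least `j` along the divisor `y_(i, 0) = 0`, that is, which are locally multiples of the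
`j`-th power of its equation. -/
noncomputable def ordD {L : Type u} [Field L] {q m : ℕ}
    (I : Ideal (MvPolynomial (Fin q × Fin (m + 1)) L)) (M : Fin q → ℕ) (i : Fin q) (j : ℕ) : ℕ :=
  Module.finrank L (((MH L m M) ⊓ (sat (I ⊔ Ideal.span {X (i, 0) ^ j})).restrictScalars L).map
    (Ideal.Quotient.mkₐ L I).toLinearMap)

/-- The generic fibre `X_P` of `X → A` is geometrically integral and not contained in a hyperplane
`y_(i, 0) = 0`, and the divisors `D_i`, `i ∈ Q`, meet properly on it: for every set `J` of them, the equation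
`y_(i, 0)` of a further one is not a zero divisor on the intersection of `X_P` with the `D_j`, `j ∈ J`. -/
structure Vars {K : Type u} [Field K] {N q m κ : ℕ} (A : AV K N) (H : Fin κ → Fm K N q m)
    (Q : Finset (Fin q)) : Prop where
  hom : ∀ j, ∃ a d, Mh (H j) a d
  prime : ∀ (L : Type u) [Field L] [IsAlgClosed L] [Algebra K L] (P : A.Pts L), Gen A P →
    (fib H (A.x P)).IsPrime
  ne : ∀ (L : Type u) [Field L] [IsAlgClosed L] [Algebra K L] (P : A.Pts L), Gen A P →
    ∀ i, X (i, 0) ∉ fib H (A.x P)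
  reg : ∀ (L : Type u) [Field L] [IsAlgClosed L] [Algebra K L] (P : A.Pts L), Gen A P →
    ∀ J : Finset (Fin q), J ⊆ Q → ∀ i ∈ Q, i ∉ J → ∀ f : MvPolynomial (Fin q × Fin (m + 1)) L,
      X (i, 0) * f ∈ sat (fib H (A.x P) ⊔ Ideal.span ((fun j => X (j, 0)) '' (J : Set (Fin q)))) →
      f ∈ sat (fib H (A.x P) ⊔ Ideal.span ((fun j => X (j, 0)) '' (J : Set (Fin q))))

end UTD
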