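import Pool.Agent.Lib.MP_17a322_ntTA.Defs

/-!
Leaf R1: the bundle `E` on `A` whose fibre at `P` consists of the vectors indexed by the monomials of multidegree `M`
which satisfy the relations between these monomials on the fibre of `X` at `P`, as the kernel of a matrix of forms in `x`.

PROOF. The rows of the matrix are the coefficients of the polynomials `x_b ^ (a - a_j) * y ^ μ * H_j`.
-/

set_option autoImplicit false

universe u

namespace UTD

open MvPolynomial UTA
open Pool.Agent.Lib.MP_17a322_nt.VA Pool.Agent.Lib.MP_17a322_nt.SL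

/-- `mo` is a list of all the exponents of multidegree `M`. -/
def IsMon {q m n : ℕ} (M : Fin q → ℕ) (mo : Fin n → (Fin q × Fin (m + 1)) →₀ ℕ) : Prop :=
  Function.Injective mo ∧ ∀ μ : (Fin q × Fin (m + 1)) →₀ ℕ, (∀ i, ∑ l, μ (i, l) = M i) ↔ ∃ c, mo c = μ

theorem exists_isMon {q m : ℕ} (M : Fin q → ℕ) :
    ∃ (n : ℕ) (mo : Fin n → (Fin q × Fin (m + 1)) →₀ ℕ), IsMon M mo := by
  classical
  have h1 : Set.Finite {μ : (Fin q × Fin (m + 1)) →₀ ℕ | ∀ i, ∑ l, μ (i, l) = M i} := by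
    refine Set.Finite.of_injOn (f := fun μ : (Fin q × Fin (m + 1)) →₀ ℕ => (μ : Fin q × Fin (m + 1) → ℕ))
      (t := {ν | ∀ z, ν z ≤ ∑ i, M i}) (fun μ hμ z => ?_) (fun a _ b _ h => DFunLike.coe_injective h) ?_
    · have h2 : μ (z.1, z.2) ≤ M z.1 := by
        rw [← hμ z.1]
        exact Finset.single_le_sum (f := fun l => μ (z.1, l)) (fun _ _ => Nat.zero_le _) (Finset.mem_univ z.2)
      exact h2.trans (Finset.single_le_sum (fun _ _ => Nat.zero_le _) (Finset.mem_univ z.1))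
    · refine (Set.finite_Iic (fun _ : Fin q × Fin (m + 1) => ∑ i, M i)).subset fun ν hν => ?_
      exact fun z => hν z
  obtain ⟨n, mo, h2, h3⟩ := h1.fin_param
  exact ⟨n, mo, h2, fun μ => by rw [← Set.mem_range, h3]; rfl⟩

/-- The vectors indexed by the monomials of multidegree `M` which satisfy the relations between these monomials
modulo the ideal `I`: `∑ a_μ w_μ = 0` for all forms `∑ a_μ y ^ μ` of multidegree `M` in `I`. -/
noncomputable def Rel {L : Type u} [Field L] {q m n : ℕ} (I : Ideal (MvPolynomial (Fin q × Fin (m + 1)) L))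
    (M : Fin q → ℕ) (mo : Fin n → (Fin q × Fin (m + 1)) →₀ ℕ) : Submodule L (Fin n → L) where
  carrier := {w | ∀ f ∈ I, f ∈ MH L m M → ∑ c, coeff (mo c) f * w c = 0}
  zero_mem' := fun f _ _ => by simp
  add_mem' := fun {a b} ha hb f hf hM => by
    simp only [Pi.add_apply, mul_add, Finset.sum_add_distrib, ha f hf hM, hb f hf hM, add_zero]
  smul_mem' := fun r a ha f hf hM => by
    simp only [Pi.smul_apply, smul_eq_mul, mul_left_comm _ r, ← Finset.mul_sum, ha f hf hM, mul_zero]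

theorem mem_Rel {L : Type u} [Field L] {q m n : ℕ} {I : Ideal (MvPolynomial (Fin q × Fin (m + 1)) L)}
    {M : Fin q → ℕ} {mo : Fin n → (Fin q × Fin (m + 1)) →₀ ℕ} {w : Fin n → L} :
    w ∈ Rel I M mo ↔ ∀ f ∈ I, f ∈ MH L m M → ∑ c, coeff (mo c) f * w c = 0 := Iff.rfl

private theorem R1_hom {K : Type u} [Field K] {N q m : ℕ} {F : Fm K N q m} {a : ℕ} {d : Fin q → ℕ} (hF : Mh F a d)
    {L : Type u} [Field L] [Algebra K L] (x : Fin (N + 1) → L) : sp F x ∈ MH L m d := by
  classical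
  intro μ hμ
  refine hF.2 μ (mem_support_iff.2 fun h0 => ?_)
  rw [mem_support_iff, sp, coeff_map, h0, map_zero] at hμ
  exact hμ rfl

private theorem R1_mono {L : Type u} [Field L] {q m : ℕ} {f : MvPolynomial (Fin q × Fin (m + 1)) L} {d : Fin q → ℕ}
    (hf : f ∈ MH L m d) (μ : (Fin q × Fin (m + 1)) →₀ ℕ) :
    monomial μ 1 * f ∈ MH L m fun i => ∑ l, μ (i, l) + d i := by
  classical
  intro ν hν i
  rw [mem_support_iff, coeff_monomial_mul'] at hν
  split_ifs at hν with h
  · rw [one_mul, ← mem_support_iff] at hν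
    show ∑ l, ν (i, l) = ∑ l, μ (i, l) + d i
    rw [← hf _ hν i, ← Finset.sum_add_distrib]
    refine Finset.sum_congr rfl fun l _ => ?_
    rw [Finsupp.tsub_apply]
    have h1 := h (i, l)
    omega
  · exact absurd rfl hν

/-- The polynomial with the coefficients `a`. -/
private noncomputable def R1_T (L : Type u) [Field L] {q m n : ℕ} (mo : Fin n → (Fin q × Fin (m + 1)) →₀ ℕ) :
    (Fin n → L) →ₗ[L] MvPolynomial (Fin q × Fin (m + 1)) L :=
  Fintype.linearCombination L fun c => monomial (mo c) 1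

private theorem R1_T_coeff {L : Type u} [Field L] {q m n : ℕ} {mo : Fin n → (Fin q × Fin (m + 1)) →₀ ℕ}
    (hmo : Function.Injective mo) (a : Fin n → L) (c : Fin n) : coeff (mo c) (R1_T L mo a) = a c := by
  classical
  rw [R1_T, Fintype.linearCombination_apply, coeff_sum, Finset.sum_eq_single c]
  · rw [coeff_smul, coeff_monomial, if_pos rfl, smul_eq_mul, mul_one]
  · intro b _ hb
    rw [coeff_smul, coeff_monomial, if_neg fun h => hb (hmo h), smul_zero]
  · intro h
    exact absurd (Finset.mem_univ c) h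

private theorem R1_T_mem {L : Type u} [Field L] {q m n : ℕ} {M : Fin q → ℕ} {mo : Fin n → (Fin q × Fin (m + 1)) →₀ ℕ}
    (hmo : IsMon M mo) (a : Fin n → L) : R1_T L mo a ∈ MH L m M := by
  classical
  rw [R1_T, Fintype.linearCombination_apply]
  refine Submodule.sum_mem _ fun c _ => Submodule.smul_mem _ _ ?_
  intro μ hμ
  have h : μ = mo c := by
    by_contra hne
    rw [mem_support_iff, coeff_monomial, if_neg (Ne.symm hne)] at hμ
    exact hμ rfl
  rw [h]
  exact (hmo.2 (mo c)).2 ⟨c, rfl⟩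

private theorem R1_T_surj {L : Type u} [Field L] {q m n : ℕ} {M : Fin q → ℕ} {mo : Fin n → (Fin q × Fin (m + 1)) →₀ ℕ}
    (hmo : IsMon M mo) {f : MvPolynomial (Fin q × Fin (m + 1)) L} (hf : f ∈ MH L m M) :
    R1_T L mo (fun c => coeff (mo c) f) = f := by
  classical
  ext ν
  by_cases h : ∃ c, mo c = ν
  · obtain ⟨c, rfl⟩ := h
    rw [R1_T_coeff hmo.1]
  · have h1 : ∀ g ∈ MH L m M, coeff ν g = 0 := by
      intro g hg
      by_contra hne
      exact h ((hmo.2 ν).1 (hg ν (mem_support_iff.2 hne)))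
    rw [h1 _ (R1_T_mem hmo _), h1 f hf]

/-- The matrix: its kernel at `x` is `Rel`, and its rows at `x` are the coefficients of forms in the ideal. -/
theorem R1_mat {K : Type u} [Field K] {N q m κ n : ℕ} (H : Fin κ → Fm K N q m) (hH : ∀ j, ∃ a d, Mh (H j) a d)
    {M : Fin q → ℕ} {mo : Fin n → (Fin q × Fin (m + 1)) →₀ ℕ} (hmo : IsMon M mo) :
    ∃ (g ag : ℕ) (G : Fin g → Fin n → MvPolynomial (Fin (N + 1)) K), (∀ i l, (G i l).IsHomogeneous ag) ∧
      ∀ (L : Type u) [Field L] [Algebra K L] (x : Fin (N + 1) → L), x ≠ 0 →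
        (∀ w, w ∈ Rel (fib H x) M mo ↔ ∀ i, ∑ l, aeval x (G i l) * w l = 0) ∧
        ∀ i, ∑ l, aeval x (G i l) • monomial (mo l) (1 : L) ∈ fib H x := by
  classical
  choose a d hMh using hH
  obtain ⟨T, hT⟩ : ∃ T : Finset ((Fin q × Fin (m + 1)) →₀ ℕ), ∀ μ c, μ ≤ mo c → μ ∈ T :=
    ⟨Finset.univ.biUnion fun c => Finset.Icc 0 (mo c), fun μ c h =>
      Finset.mem_biUnion.2 ⟨c, Finset.mem_univ c, Finset.mem_Icc.2 ⟨zero_le, h⟩⟩⟩
  obtain ⟨e⟩ : Nonempty ((Fin κ × Fin (N + 1) × T) ≃ Fin (Fintype.card (Fin κ × Fin (N + 1) × T))) :=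
    ⟨Fintype.equivFin _⟩
  obtain ⟨am, ham⟩ : ∃ am : ℕ, ∀ j, a j ≤ am := ⟨∑ j, a j, fun j =>
    Finset.single_le_sum (fun _ _ => Nat.zero_le _) (Finset.mem_univ j)⟩
  obtain ⟨G0, hG0⟩ : ∃ G0 : Fin κ × Fin (N + 1) × T → Fin n → MvPolynomial (Fin (N + 1)) K,
    ∀ z c, G0 z c = X z.2.1 ^ (am - a z.1) * coeff (mo c) (monomial (z.2.2 : (Fin q × Fin (m + 1)) →₀ ℕ) 1 * H z.1) :=
    ⟨_, fun _ _ => rfl⟩
  have hG0h : ∀ z c, (G0 z c).IsHomogeneous am := by
    intro z c
    rw [hG0, coeff_monomial_mul']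
    have h1 : (X z.2.1 ^ (am - a z.1) : MvPolynomial (Fin (N + 1)) K).IsHomogeneous (am - a z.1) := by
      have h := (isHomogeneous_X K z.2.1).pow (am - a z.1)
      rwa [one_mul] at h
    have h2 : (if (z.2.2 : (Fin q × Fin (m + 1)) →₀ ℕ) ≤ mo c then
        1 * coeff (mo c - (z.2.2 : (Fin q × Fin (m + 1)) →₀ ℕ)) (H z.1) else 0).IsHomogeneous (a z.1) := by
      split_ifs
      · rw [one_mul]
        exact (hMh z.1).1 _
      · exact isHomogeneous_zero _ _ _
    have h3 := h1.mul h2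
    rwa [Nat.sub_add_cancel (ham z.1)] at h3
  refine ⟨_, am, fun i c => G0 (e.symm i) c, fun i c => hG0h _ _, fun L _ _ x hx => ?_⟩
  have hval : ∀ z c, aeval x (G0 z c) = x z.2.1 ^ (am - a z.1) *
      coeff (mo c) (monomial (z.2.2 : (Fin q × Fin (m + 1)) →₀ ℕ) 1 * sp (H z.1) x) := by
    intro z c
    rw [hG0, map_mul, map_pow, aeval_X, coeff_monomial_mul', coeff_monomial_mul', sp, coeff_map]
    split_ifs
    · rw [one_mul, one_mul]
      rfl
    · rw [map_zero]
  have hrow : ∀ (w : Fin n → L), (∀ i, ∑ l, aeval x (G0 (e.symm i) l) * w l = 0) ↔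
      ∀ z : Fin κ × Fin (N + 1) × T, x z.2.1 ^ (am - a z.1) *
        ∑ c, coeff (mo c) (monomial (z.2.2 : (Fin q × Fin (m + 1)) →₀ ℕ) 1 * sp (H z.1) x) * w c = 0 := by
    intro w
    constructor
    · intro h z
      have h2 := h (e z)
      simp only [e.symm_apply_apply, hval, mul_assoc] at h2
      rw [← Finset.mul_sum] at h2
      exact h2
    · intro h i
      simp only [hval, mul_assoc]
      rw [← Finset.mul_sum]
      exact h (e.symm i)
  have hdeg : ∀ z : Fin κ × Fin (N + 1) × T,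
      (¬ ∀ i, ∑ l, (z.2.2 : (Fin q × Fin (m + 1)) →₀ ℕ) (i, l) + d z.1 i = M i) → ∀ c,
      coeff (mo c) (monomial (z.2.2 : (Fin q × Fin (m + 1)) →₀ ℕ) 1 * sp (H z.1) x) = 0 := by
    intro z hd c
    by_contra hne
    refine hd fun i => ?_
    exact (R1_mono (R1_hom (hMh z.1) x) (z.2.2 : (Fin q × Fin (m + 1)) →₀ ℕ) (mo c) (mem_support_iff.2 hne) i).symm.trans
      ((hmo.2 (mo c)).2 ⟨c, rfl⟩ i)
  have hdeg' : ∀ z : Fin κ × Fin (N + 1) × T,
      (∀ i, ∑ l, (z.2.2 : (Fin q × Fin (m + 1)) →₀ ℕ) (i, l) + d z.1 i = M i) →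
      monomial (z.2.2 : (Fin q × Fin (m + 1)) →₀ ℕ) 1 * sp (H z.1) x ∈ MH L m M := by
    intro z hd
    have h1 := R1_mono (R1_hom (hMh z.1) x) (z.2.2 : (Fin q × Fin (m + 1)) →₀ ℕ)
    have h2 : (fun i => ∑ l, (z.2.2 : (Fin q × Fin (m + 1)) →₀ ℕ) (i, l) + d z.1 i) = M := funext hd
    rwa [h2] at h1
  have hmem : ∀ z : Fin κ × Fin (N + 1) × T,
      monomial (z.2.2 : (Fin q × Fin (m + 1)) →₀ ℕ) 1 * sp (H z.1) x ∈ fib H x := fun z =>
    Ideal.mul_mem_left _ _ (Ideal.subset_span ⟨z.1, rfl⟩)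
  obtain ⟨b, hb⟩ := Function.ne_iff.1 hx
  refine ⟨fun w => ?_, fun i => ?_⟩
  · rw [hrow, mem_Rel]
    constructor
    · intro h z
      rw [mul_eq_zero]
      right
      by_cases hd : ∀ i, ∑ l, (z.2.2 : (Fin q × Fin (m + 1)) →₀ ℕ) (i, l) + d z.1 i = M i
      · exact h _ (hmem z) (hdeg' z hd)
      · exact Finset.sum_eq_zero fun c _ => by rw [hdeg z hd c, zero_mul]
    · intro h f hf _
      -- the functional vanishes on the ideal
      have h1 : ∀ (j : Fin κ) (μ : (Fin q × Fin (m + 1)) →₀ ℕ),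
          ∑ c, coeff (mo c) (monomial μ 1 * sp (H j) x) * w c = 0 := by
        intro j μ
        by_cases hμ : μ ∈ T
        · have h2 := h (j, b, ⟨μ, hμ⟩)
          exact (mul_eq_zero.1 h2).resolve_left (pow_ne_zero _ hb)
        · refine Finset.sum_eq_zero fun c _ => ?_
          rw [coeff_monomial_mul', if_neg fun h3 => hμ (hT μ c h3), zero_mul]
      have h2 : ∀ (j : Fin κ) (p : MvPolynomial (Fin q × Fin (m + 1)) L),
          ∑ c, coeff (mo c) (p * sp (H j) x) * w c = 0 := by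
        intro j p
        induction p using MvPolynomial.induction_on' with
        | monomial μ r =>
          have h3 : (monomial μ r : MvPolynomial (Fin q × Fin (m + 1)) L) = C r * monomial μ 1 := by
            rw [C_mul_monomial, mul_one]
          rw [h3]
          simp only [mul_assoc, coeff_C_mul]
          rw [← Finset.mul_sum, h1 j μ, mul_zero]
        | add p p' hp hp' =>
          simp only [add_mul, coeff_add, Finset.sum_add_distrib, hp, hp', add_zero]
      unfold fib at hf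
      obtain ⟨p, rfl⟩ := (Submodule.mem_span_range_iff_exists_fun _).1 hf
      have h3 : ∀ c, coeff (mo c) (∑ j, p j • sp (H j) x) * w c = ∑ j, coeff (mo c) (p j * sp (H j) x) * w c := by
        intro c
        rw [coeff_sum, Finset.sum_mul]
        rfl
      simp only [h3]
      rw [Finset.sum_comm]
      exact Finset.sum_eq_zero fun j _ => h2 j (p j)
  · obtain ⟨z, hz⟩ : ∃ z, z = e.symm i := ⟨_, rfl⟩
    show ∑ l, aeval x (G0 (e.symm i) l) • monomial (mo l) (1 : L) ∈ fib H x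
    rw [← hz]
    simp only [hval]
    by_cases hd : ∀ i, ∑ l, (z.2.2 : (Fin q × Fin (m + 1)) →₀ ℕ) (i, l) + d z.1 i = M i
    · have h1 := R1_T_surj hmo (hdeg' z hd)
      rw [R1_T, Fintype.linearCombination_apply] at h1
      simp only [mul_smul]
      rw [← Finset.smul_sum, h1]
      exact Submodule.smul_of_tower_mem (fib H x) (x z.2.1 ^ (am - a z.1)) (hmem z)
    · simp only [hdeg z hd, mul_zero, zero_smul, Finset.sum_const_zero]
      exact Ideal.zero_mem _

/-- The dimension of the space of the vectors which satisfy the relations. -/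
theorem R1_rank {L : Type u} [Field L] {q m n : ℕ} (I : Ideal (MvPolynomial (Fin q × Fin (m + 1)) L))
    {M : Fin q → ℕ} {mo : Fin n → (Fin q × Fin (m + 1)) →₀ ℕ} (hmo : IsMon M mo) :
    Module.finrank L (Rel I M mo) = hf I M := by
  classical
  obtain ⟨Ψ, hΨ⟩ : ∃ Ψ : (Fin n → L) →ₗ[L] MvPolynomial (Fin q × Fin (m + 1)) L ⧸ I,
    Ψ = (Ideal.Quotient.mkₐ L I).toLinearMap ∘ₗ R1_T L mo := ⟨_, rfl⟩
  have h1 : MH L m M = LinearMap.range (R1_T L mo) := by
    ext f
    constructor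
    · intro hf
      exact ⟨_, R1_T_surj hmo hf⟩
    · rintro ⟨a, rfl⟩
      exact R1_T_mem hmo a
  have h2 : hf I M = Module.finrank L (LinearMap.range Ψ) := by
    rw [hf, h1, hΨ, LinearMap.range_comp]
  have hker : ∀ a, a ∈ LinearMap.ker Ψ ↔ R1_T L mo a ∈ I := by
    intro a
    rw [LinearMap.mem_ker, hΨ]
    exact Ideal.Quotient.eq_zero_iff_mem
  have h3 : (Rel I M mo).map (dotProductEquiv L (Fin n) : (Fin n → L) →ₗ[L] Module.Dual L (Fin n → L)) =
      (LinearMap.ker Ψ).dualAnnihilator := by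
    ext φ
    constructor
    · rintro ⟨w, hw, rfl⟩
      rw [Submodule.mem_dualAnnihilator]
      intro a ha
      have h4 := hw (R1_T L mo a) ((hker a).1 ha) (R1_T_mem hmo a)
      simp only [R1_T_coeff hmo.1] at h4
      show w ⬝ᵥ a = 0
      rw [dotProduct_comm]
      exact h4
    · intro hφ
      obtain ⟨w, rfl⟩ := (dotProductEquiv L (Fin n)).surjective φ
      refine ⟨w, ?_, rfl⟩
      rw [Submodule.mem_dualAnnihilator] at hφ
      intro f hf hM
      have h4 := hφ (fun c => coeff (mo c) f) ((hker _).2 (by rwa [R1_T_surj hmo hM]))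
      have h5 : w ⬝ᵥ (fun c => coeff (mo c) f) = 0 := h4
      rwa [dotProduct_comm] at h5
  have h4 : Module.finrank L (Rel I M mo) = Module.finrank L (LinearMap.ker Ψ).dualAnnihilator := by
    rw [← h3]
    exact (LinearEquiv.finrank_map_eq (dotProductEquiv L (Fin n)) (Rel I M mo)).symm
  have h5 := Subspace.finrank_add_finrank_dualAnnihilator_eq (LinearMap.ker Ψ)
  have h6 := LinearMap.finrank_range_add_finrank_ker Ψ
  omega

end UTD
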