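import Pool.Agent.Lib.MP_17a322_nt.EF.T1
import Pool.Agent.Lib.MP_17a322_ntTD.R1
import Pool.Agent.Lib.MP_17a322_ntTA.Y2
import Pool.Agent.Lib.MP_17a322_ntPE.P6

/-!
Leaf R2: the inequality for one choice of a basis at every place, with the height of the space of the relations and a
vertical divisor.

PROOF. `SL.SL_finalV` for the bundle `E` of the vectors `Z` indexed by all monomials of multidegree `M` which satisfy the
relations (`R1_mat`, `R1_rank`), independent rows of the matrix from `UPE.rows_poly`, its height from `UPE.hPl_eq`.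
-/

set_option autoImplicit false

universe u

namespace UTD

open MvPolynomial Height NumberField UTA
open Pool.Agent.Lib.MP_17a322_nt.VA

private theorem R2_sum {ι : Type*} (s : Finset ι) (w a b c d : ι → ℝ) (t r : ℝ) :
    ∑ v ∈ s, w v * (a v + t * b v - r * c v + d v) =
      ∑ v ∈ s, w v * a v + t * ∑ v ∈ s, w v * b v - r * ∑ v ∈ s, w v * c v +
        ∑ v ∈ s, w v * d v := by
  rw [Finset.mul_sum, Finset.mul_sum, ← Finset.sum_add_distrib, ← Finset.sum_sub_distrib,
    ← Finset.sum_add_distrib]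
  exact Finset.sum_congr rfl fun v _ => by ring

private theorem R2_sum' {ι : Type*} (s : Finset ι) (a b c d : ι → ℝ) (t r : ℝ) :
    ∑ v ∈ s, (a v + t * b v - r * c v + d v) =
      ∑ v ∈ s, a v + t * ∑ v ∈ s, b v - r * ∑ v ∈ s, c v + ∑ v ∈ s, d v := by
  rw [Finset.mul_sum, Finset.mul_sum, ← Finset.sum_add_distrib, ← Finset.sum_sub_distrib,
    ← Finset.sum_add_distrib]

private theorem R2_sum2 {ι : Type*} (s : Finset ι) (w a b : ι → ℝ) :
    ∑ v ∈ s, w v * (a v + b v) = ∑ v ∈ s, w v * a v + ∑ v ∈ s, w v * b v := by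
  rw [← Finset.sum_add_distrib]
  exact Finset.sum_congr rfl fun v _ => by ring

/-- The form whose value is the product of the forms in `x` of the exceptional set. -/
private theorem R2_onM {K : Type u} [Field K] {N q m κ n : ℕ} {A : AV K N} {H : Fin κ → Fm K N q m} (hC : Pr A H)
    {M : Fin q → ℕ} {mo : Fin n → (Fin q × Fin (m + 1)) →₀ ℕ} (hmo : IsMon M mo)
    {g : ℕ} (G : Matrix (Fin g) (Fin n) (MvPolynomial (Fin (N + 1)) K))
    (hG : ∀ (L : Type u) [Field L] [IsAlgClosed L] [Algebra K L] (P : A.Pts L),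
      Pool.Agent.Lib.MP_17a322_nt.SL.Gen A P → ∀ z, z ∈ Pool.Agent.Lib.MP_17a322_nt.SL.Fib A G P →
        z ∈ Rel (fib H (A.x P)) M mo)
    {F : MvPolynomial (Fin (N + 1) ⊕ Fin n) K} (hF : Pool.Agent.Lib.MP_17a322_nt.SL.Exc A G F) :
    NF A H (UTA.onM mo F) := by
  classical
  have hdeg : ∀ c i, ∑ l, mo c (i, l) = M i := fun c => (hmo.2 (mo c)).2 ⟨c, rfl⟩
  obtain ⟨⟨a, b, h1⟩, h2⟩ := hF
  refine ⟨⟨_, _, Mh_onM hdeg h1⟩, fun L _ _ _ P hP h => ?_⟩
  obtain ⟨c, k, w, hc, hw, hFw⟩ := h2 L P hP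
  have hpr := hC.prime L P hP
  have h3 : sp (UTA.onM mo F) (A.x P) = C c * ∏ i, ∑ l, w i l • (monomial (mo l) 1 :
      MvPolynomial (Fin q × Fin (m + 1)) L) := by
    rw [sp_onM]
    have h4 := congrArg (aeval (R := L) fun l : Fin n => (monomial (mo l) 1 :
      MvPolynomial (Fin q × Fin (m + 1)) L)) hFw
    rw [map_mul, algHom_C, map_prod] at h4
    have h5 := comp_aeval_apply (R := K)
      (Sum.elim (fun i => (C (A.x P i) : MvPolynomial (Fin n) L)) X)
      ((aeval (R := L) fun l : Fin n => (monomial (mo l) 1 :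
        MvPolynomial (Fin q × Fin (m + 1)) L)).restrictScalars K) F
    rw [AlgHom.restrictScalars_apply, h4] at h5
    have h6 : (fun i => ((aeval (R := L) fun l : Fin n => (monomial (mo l) 1 :
        MvPolynomial (Fin q × Fin (m + 1)) L)).restrictScalars K)
          (Sum.elim (fun i => (C (A.x P i) : MvPolynomial (Fin n) L)) X i)) =
        Sum.elim (fun a => (C (A.x P a) : MvPolynomial (Fin q × Fin (m + 1)) L))
          fun c => monomial (mo c) 1 := by
      funext i
      rcases i with a | c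
      · rw [Sum.elim_inl, Sum.elim_inl, AlgHom.restrictScalars_apply, algHom_C]
        rfl
      · rw [Sum.elim_inr, Sum.elim_inr, AlgHom.restrictScalars_apply, aeval_X]
    rw [h6] at h5
    rw [← h5]
    congr 1
    refine Finset.prod_congr rfl fun i _ => ?_
    rw [map_sum]
    refine Finset.sum_congr rfl fun l _ => ?_
    rw [map_mul, aeval_X, algHom_C, Algebra.smul_def]
  rw [h3] at h
  rcases hpr.mem_or_mem h with h4 | h4
  · exact hpr.ne_top (Ideal.eq_top_of_isUnit_mem _ h4 ((isUnit_iff_ne_zero.2 hc).map C))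
  · rw [hpr.prod_mem_iff] at h4
    obtain ⟨i, -, h5⟩ := h4
    obtain ⟨z, hz, hne⟩ := hw i
    have h6 := hG L P hP z hz _ h5 (Submodule.sum_mem _ fun l _ => Submodule.smul_mem _ _ (MH_monomial (hdeg l) 1))
    have h7 : ∀ c, coeff (mo c) (∑ l, w i l • (monomial (mo l) 1 : MvPolynomial (Fin q × Fin (m + 1)) L)) = w i c := by
      intro c
      rw [coeff_sum, Finset.sum_eq_single c]
      · rw [coeff_smul, coeff_monomial, if_pos rfl, smul_eq_mul, mul_one]
      · intro b _ hb
        rw [coeff_smul, coeff_monomial, if_neg fun h => hb (hmo.1 h), smul_zero]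
      · intro h
        exact absurd (Finset.mem_univ c) h
    simp only [h7] at h6
    exact hne h6

/-- A monomial of multidegree `M` which does not vanish. -/
theorem R2_ne {L : Type u} [Field L] {q m n : ℕ} {M : Fin q → ℕ} {mo : Fin n → (Fin q × Fin (m + 1)) →₀ ℕ}
    (hmo : IsMon M mo) {y : Fin q → Fin (m + 1) → L} (hy : ∀ i, y i ≠ 0) : (fun c => mv (mo c) y) ≠ 0 := by
  classical
  choose t ht using fun i => Function.ne_iff.1 (hy i)
  obtain ⟨c, hc⟩ := (hmo.2 (∑ i, Finsupp.single (i, t i) (M i))).1 (fun i => by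
    simp only [Finsupp.finsetSum_apply]
    rw [Finset.sum_comm, Finset.sum_eq_single i]
    · rw [Finset.sum_eq_single (t i)]
      · rw [Finsupp.single_eq_same]
      · intro l _ hl
        rw [Finsupp.single_apply, if_neg]
        intro h
        exact hl (Prod.ext_iff.1 h).2.symm
      · intro h
        exact absurd (Finset.mem_univ _) h
    · intro i' _ hi
      refine Finset.sum_eq_zero fun l _ => ?_
      rw [Finsupp.single_apply, if_neg]
      intro h
      exact hi (Prod.ext_iff.1 h).1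
    · intro h
      exact absurd (Finset.mem_univ _) h)
  intro h0
  have h1 := congrFun h0 c
  have h2 : mv (mo c) y = 0 := h1
  rw [hc, mv, Finset.prod_eq_zero_iff] at h2
  obtain ⟨z, -, hz⟩ := h2
  by_cases hz' : z.2 = t z.1
  · refine pow_ne_zero _ ?_ hz
    rw [hz']
    exact ht z.1
  · have h3 : (∑ i, Finsupp.single (i, t i) (M i) : (Fin q × Fin (m + 1)) →₀ ℕ) z = 0 := by
      rw [Finsupp.finsetSum_apply]
      refine Finset.sum_eq_zero fun i _ => ?_
      rw [Finsupp.single_apply, if_neg]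
      intro h
      have h4 := Prod.ext_iff.1 h
      exact hz' (h4.2.symm.trans (congrArg t h4.1))
    rw [h3, pow_zero] at hz
    exact one_ne_zero hz

/-- The forms `Λ` of one basis and the rows of the matrix are independent. -/
private theorem R2_ind {K : Type u} [Field K] {N q m κ n : ℕ} (A : AV K N) {H : Fin κ → Fm K N q m}
    {M : Fin q → ℕ} {r : ℕ} {g : Fin q → ℝ} (E : EstG A H M r g)
    {mo : Fin n → (Fin q × Fin (m + 1)) →₀ ℕ}
    {g₀ ag : ℕ} (G : Fin g₀ → Fin n → MvPolynomial (Fin (N + 1)) K) (hG : ∀ i l, (G i l).IsHomogeneous ag)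
    (hGf : ∀ (L : Type u) [Field L] [Algebra K L] (P : A.Pts L) (i : Fin g₀),
      ∑ l, aeval (A.x P) (G i l) • monomial (mo l) (1 : L) ∈ fib H (A.x P))
    (hGl : ∀ (L : Type u) [Field L] [Algebra K L] (P : A.Pts L), Pool.Agent.Lib.MP_17a322_nt.SL.Gen A P →
      LinearIndependent L fun (a : Fin g₀) (l : Fin n) => aeval (A.x P) (G a l))
    (τ : Fin r → Fin n) (hτ : ∀ c, mo (τ c) = E.mon c) (b : Fin E.s)
    (T : Finset (Fin (E.s * r))) (hT : ∀ j ∈ T, (finProdFinEquiv.symm j).1 = b) :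
    Pool.Agent.Lib.MP_17a322_nt.SL.Ind A G
      (fun j l => ∑ c, if τ c = l then E.Λ (finProdFinEquiv.symm j).1 (finProdFinEquiv.symm j).2 c else 0) T := by
  classical
  obtain ⟨Ω, _, _, _, P₀, hP₀⟩ := Pool.Agent.Lib.MP_17a322_nt.EF.T_gen A
  -- independence at the generic point
  have h0 : LinearIndependent Ω (fun (i : Fin g₀ ⊕ T) (l : Fin n) => aeval (A.x P₀)
      ((Sum.elim G (fun (j : T) l => ∑ c, if τ c = l then E.Λ (finProdFinEquiv.symm j.1).1
        (finProdFinEquiv.symm j.1).2 c else 0) : Fin g₀ ⊕ T → Fin n → MvPolynomial (Fin (N + 1)) K) i l)) := by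
    rw [Fintype.linearIndependent_iff]
    intro u hu
    have hu' : ∀ l, ∑ a, u (Sum.inl a) * aeval (A.x P₀) (G a l) +
        ∑ j : T, u (Sum.inr j) * ∑ c, (if τ c = l then aeval (A.x P₀) (E.Λ (finProdFinEquiv.symm j.1).1
          (finProdFinEquiv.symm j.1).2 c) else 0) = 0 := by
      intro l
      have h1 := congrFun hu l
      rw [Finset.sum_apply, Fintype.sum_sum_type] at h1
      simp only [Pi.smul_apply, smul_eq_mul, Sum.elim_inl, Sum.elim_inr, map_sum, apply_ite (aeval (A.x P₀)),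
        map_zero, Pi.zero_apply] at h1
      exact h1
    -- the polynomial
    have h1 : ∑ c, (∑ j : T, u (Sum.inr j) * aeval (A.x P₀) (E.Λ (finProdFinEquiv.symm j.1).1
        (finProdFinEquiv.symm j.1).2 c)) • monomial (E.mon c) (1 : Ω) ∈ fib H (A.x P₀) := by
      have h2 : ∑ c, (∑ j : T, u (Sum.inr j) * aeval (A.x P₀) (E.Λ (finProdFinEquiv.symm j.1).1
          (finProdFinEquiv.symm j.1).2 c)) • monomial (E.mon c) (1 : Ω) =
          - ∑ a, u (Sum.inl a) • ∑ l, aeval (A.x P₀) (G a l) • monomial (mo l) (1 : Ω) := by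
        have h3 : ∑ l, (∑ a, u (Sum.inl a) * aeval (A.x P₀) (G a l) +
          ∑ j : T, u (Sum.inr j) * ∑ c, (if τ c = l then aeval (A.x P₀) (E.Λ (finProdFinEquiv.symm j.1).1
            (finProdFinEquiv.symm j.1).2 c) else 0)) • monomial (mo l) (1 : Ω) = 0 :=
          Finset.sum_eq_zero fun l _ => by rw [hu' l, zero_smul]
        have h4 : ∑ l, (∑ a, u (Sum.inl a) * aeval (A.x P₀) (G a l)) • monomial (mo l) (1 : Ω) =
            ∑ a, u (Sum.inl a) • ∑ l, aeval (A.x P₀) (G a l) • monomial (mo l) (1 : Ω) := by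
          simp only [Finset.sum_smul, Finset.smul_sum, smul_smul]
          exact Finset.sum_comm
        have h5 : ∑ l, (∑ j : T, u (Sum.inr j) * ∑ c, (if τ c = l then aeval (A.x P₀)
            (E.Λ (finProdFinEquiv.symm j.1).1 (finProdFinEquiv.symm j.1).2 c) else 0)) • monomial (mo l) (1 : Ω) =
            ∑ c, (∑ j : T, u (Sum.inr j) * aeval (A.x P₀) (E.Λ (finProdFinEquiv.symm j.1).1
              (finProdFinEquiv.symm j.1).2 c)) • monomial (E.mon c) (1 : Ω) := by
          have h6 : ∀ l, (∑ j : T, u (Sum.inr j) * ∑ c, (if τ c = l then aeval (A.x P₀)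
              (E.Λ (finProdFinEquiv.symm j.1).1 (finProdFinEquiv.symm j.1).2 c) else 0)) • monomial (mo l) (1 : Ω) =
              ∑ c, if τ c = l then (∑ j : T, u (Sum.inr j) * aeval (A.x P₀) (E.Λ (finProdFinEquiv.symm j.1).1
                (finProdFinEquiv.symm j.1).2 c)) • monomial (mo l) (1 : Ω) else 0 := by
            intro l
            simp only [Finset.mul_sum, mul_ite, mul_zero]
            rw [Finset.sum_comm, Finset.sum_smul]
            refine Finset.sum_congr rfl fun c _ => ?_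
            split_ifs with h
            · rfl
            · rw [Finset.sum_const_zero, zero_smul]
          simp only [h6]
          rw [Finset.sum_comm]
          refine Finset.sum_congr rfl fun c _ => ?_
          rw [Finset.sum_eq_single (τ c)]
          · rw [if_pos rfl, hτ]
          · intro l _ hl
            rw [if_neg (Ne.symm hl)]
          · intro h
            exact absurd (Finset.mem_univ _) h
        simp only [add_smul, Finset.sum_add_distrib] at h3
        rw [h4, h5] at h3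
        exact eq_neg_of_add_eq_zero_right h3
      rw [h2]
      exact (fib H (A.x P₀)).neg_mem (Submodule.sum_mem _ fun a _ =>
        Submodule.smul_of_tower_mem (fib H (A.x P₀)) _ (hGf Ω P₀ a))
    have h2 := E.ind Ω P₀ hP₀ _ h1
    -- the determinant
    have h3 : ∀ j : T, u (Sum.inr j) = 0 := by
      have hd : LinearIndependent Ω fun (j : T) (c : Fin r) => aeval (A.x P₀)
          (E.Λ (finProdFinEquiv.symm j.1).1 (finProdFinEquiv.symm j.1).2 c) := by
        have h4 := ind_det A (fun i _ => Fin.elim0 i : Matrix (Fin 0) (Fin r) _) E.Λ E.Λ_hom b (E.Λ_det b) T hT Ω P₀ hP₀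
        have h5 := h4.comp Sum.inr Sum.inr_injective
        exact h5
      rw [Fintype.linearIndependent_iff] at hd
      refine hd (fun j => u (Sum.inr j)) ?_
      funext c
      have h4 := congrFun h2 c
      rw [Finset.sum_apply]
      exact h4
    have h4 : ∀ a, u (Sum.inl a) = 0 := by
      have h5 := hGl Ω P₀ hP₀
      rw [Fintype.linearIndependent_iff] at h5
      refine h5 (fun a => u (Sum.inl a)) ?_
      funext l
      have h6 := hu' l
      have h7 : ∑ j : T, u (Sum.inr j) * ∑ c, (if τ c = l then aeval (A.x P₀) (E.Λ (finProdFinEquiv.symm j.1).1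
          (finProdFinEquiv.symm j.1).2 c) else 0) = 0 := Finset.sum_eq_zero fun j _ => by rw [h3 j, zero_mul]
      rw [h7, add_zero] at h6
      rw [Finset.sum_apply]
      exact h6
    rintro (a | j)
    · exact h4 a
    · exact h3 j
  intro L _ _ P hP
  have h1 := Pool.Agent.Lib.MP_17a322_nt.EF.T_li A
    (Sum.elim G (fun (j : T) l => ∑ c, if τ c = l then E.Λ (finProdFinEquiv.symm j.1).1
        (finProdFinEquiv.symm j.1).2 c else 0) : Fin g₀ ⊕ T → Fin n → MvPolynomial (Fin (N + 1)) K)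
    (Sum.elim (fun _ => ag) fun _ => E.D) (by
      rintro (a | j) l
      · exact hG a l
      · refine IsHomogeneous.sum _ _ _ fun c _ => ?_
        split_ifs
        · exact E.Λ_hom _ _ _
        · exact isHomogeneous_zero _ _ _) P₀ P hP₀ hP h0
  have h2 : (fun (i : Fin g₀ ⊕ T) (l : Fin n) => aeval (A.x P)
      ((Sum.elim G (fun (j : T) l => ∑ c, if τ c = l then E.Λ (finProdFinEquiv.symm j.1).1
        (finProdFinEquiv.symm j.1).2 c else 0) : Fin g₀ ⊕ T → Fin n → MvPolynomial (Fin (N + 1)) K) i l)) =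
      Sum.elim (fun (i : Fin g₀) (l : Fin n) => aeval (A.x P) (G i l))
        fun (j : T) (l : Fin n) => aeval (A.x P) (∑ c, if τ c = l then E.Λ (finProdFinEquiv.symm j.1).1
          (finProdFinEquiv.symm j.1).2 c else 0) := by
    funext i
    rcases i with a | j
    · rfl
    · rfl
  rw [h2] at h1
  exact h1

theorem R2_one {K : Type u} [Field K] [NumberField K] {N q m κ : ℕ} (A : AV K N)
    (H : Fin κ → Fm K N q m) (hH : ∀ j, ∃ a d, Mh (H j) a d) (hC : Pr A H) {M : Fin q → ℕ} {r : ℕ}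
    {g : Fin q → ℝ} (E : EstG A H M r g) (hr : 0 < r)
    (hrk : ∀ (L : Type u) [Field L] [IsAlgClosed L] [Algebra K L] (P : A.Pts L),
      Pool.Agent.Lib.MP_17a322_nt.SL.Gen A P →
      hf (fib H (A.x P)) M = r)
    {n : ℕ} {mo : Fin n → (Fin q × Fin (m + 1)) →₀ ℕ} (hmo : IsMon M mo)
    {e : ℕ} (f : MvPolynomial (Fin (N + 1)) K) (hf : f.IsHomogeneous e) (hfA : f ∉ A.I)
    (S : Finset (FinitePlace K)) (ci : InfinitePlace K → Fin E.s) (cf : FinitePlace K → Fin E.s)
    (T' : ℕ) (ε : ℝ) (hε : 0 < ε) :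
    ∃ (C : ℝ) (F : Fm K N q m), NF A H F ∧
      ∀ (P : A.Pts K) (y : Fin q → Fin (m + 1) → K), InX H (A.x P) y → val F (A.x P) y ≠ 0 →
        aeval (A.x P) f ≠ 0 ∧
        (∀ (v : InfinitePlace K) l, ∑ c, aeval (A.x P) (E.Λ (ci v) l c) * mv (E.mon c) y ≠ 0) ∧
        (∀ v ∈ S, ∀ l, ∑ c, aeval (A.x P) (E.Λ (cf v) l c) * mv (E.mon c) y ≠ 0) ∧
        ((∑ v : InfinitePlace K, (v.mult : ℝ) * LS E v.val P y (ci v)) +
            ∑ v ∈ S, LS E v.val P y (cf v)) +
          T' * ((∑ v : InfinitePlace K, (v.mult : ℝ) * LR E.d E.R v.val (A.x P)) +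
            ∑ v ∈ S, LR E.d E.R v.val (A.x P)) +
          ((∑ v : InfinitePlace K, (v.mult : ℝ) * LR e f v.val (A.x P)) +
            ∑ v ∈ S, LR e f v.val (A.x P)) +
          UPE.hPl (Rel (fib H (A.x P)) M mo) ≤
          r * ∑ i, (M i : ℝ) * logHeight (y i) +
            ε * (∑ i, (M i : ℝ) * logHeight (y i) + logHeight (A.x P)) + C := by
  classical
  have hpr : A.I.IsPrime := Z_prime A
  have hdeg : ∀ c i, ∑ l, mo c (i, l) = M i := fun c => (hmo.2 (mo c)).2 ⟨c, rfl⟩
  obtain ⟨g₁, ag, G, hGh, hG⟩ := R1_mat H hH hmo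
  obtain ⟨Ω, _, _, _, P₀, hP₀⟩ := Pool.Agent.Lib.MP_17a322_nt.EF.T_gen A
  -- the independent rows
  have hker : Module.finrank Ω (LinearMap.ker (Matrix.mulVecLin
      (Matrix.of fun i l => aeval (A.x P₀) (G i l)))) = r := by
    have h1 : LinearMap.ker (Matrix.mulVecLin (Matrix.of fun i l => aeval (A.x P₀) (G i l))) =
        Rel (fib H (A.x P₀)) M mo := by
      ext w
      rw [(hG Ω (A.x P₀) (A.x_ne P₀)).1 w, LinearMap.mem_ker]
      constructor
      · intro h i
        exact congrFun h i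
      · intro h
        funext i
        exact h i
    rw [h1, R1_rank _ hmo]
    exact hrk Ω P₀ hP₀
  obtain ⟨g₀, ρ, J, hgr, hDh, hDA, hrows⟩ := UPE.rows_poly A G hGh P₀ hP₀ hker
  obtain ⟨D₀, hD₀⟩ : ∃ D₀ : MvPolynomial (Fin (N + 1)) K,
    D₀ = (Matrix.of fun a b => G (ρ a) (J b)).det := ⟨_, rfl⟩
  rw [← hD₀] at hDh hDA hrows
  have hmem : ∀ (L : Type u) [Field L] [Algebra K L] (P : A.Pts L), aeval (A.x P) D₀ ≠ 0 → ∀ w,
      w ∈ Rel (fib H (A.x P)) M mo ↔ ∀ a, ∑ l, aeval (A.x P) (G (ρ a) l) * w l = 0 := by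
    intro L _ _ P hP w
    rw [(hG L (A.x P) (A.x_ne P)).1 w]
    exact ⟨fun h a => h (ρ a), fun h => hrows L P hP w h⟩
  have hli : ∀ (L : Type u) [Field L] [Algebra K L] (P : A.Pts L), aeval (A.x P) D₀ ≠ 0 →
      LinearIndependent L fun (a : Fin g₀) (l : Fin n) => aeval (A.x P) (G (ρ a) l) := by
    intro L _ _ P hP
    rw [hD₀, UPE.det_val] at hP
    have h1 := Matrix.linearIndependent_rows_of_det_ne_zero hP
    have h2 : (fun i => (Matrix.of fun a b => aeval (A.x P) (G (ρ a) (J b))) i) =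
        (LinearMap.funLeft L L J) ∘ fun (a : Fin g₀) (l : Fin n) => aeval (A.x P) (G (ρ a) l) := by
      funext a b
      rfl
    rw [h2] at h1
    exact LinearIndependent.of_comp _ h1
  have hDgen : ∀ (L : Type u) [Field L] [Algebra K L] (P : A.Pts L),
      Pool.Agent.Lib.MP_17a322_nt.SL.Gen A P → aeval (A.x P) D₀ ≠ 0 := fun L _ _ P hP h0 =>
    hDA (hP _ _ hDh h0)
  -- the positions of the monomials of `E`
  choose τ hτ using fun c => (hmo.2 (E.mon c)).1 (E.deg c)
  have hind : ∀ (b : Fin E.s) (T : Finset (Fin (E.s * r))), (∀ j ∈ T, (finProdFinEquiv.symm j).1 = b) →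
      Pool.Agent.Lib.MP_17a322_nt.SL.Ind A (fun a l => G (ρ a) l)
        (fun j l => ∑ c, if τ c = l then E.Λ (finProdFinEquiv.symm j).1 (finProdFinEquiv.symm j).2 c else 0) T :=
    fun b T hT => R2_ind A E (mo := mo) (ag := ag) (fun a l => G (ρ a) l) (fun a l => hGh _ l)
      (fun L _ _ P a => (hG L (A.x P) (A.x_ne P)).2 (ρ a)) (fun L _ _ P hP => hli L P (hDgen L P hP)) τ hτ b T hT
  have hf' : (f * E.R ^ T').IsHomogeneous (e + T' * E.d) := by
    have h1 := E.R_hom.pow T'
    rw [mul_comm E.d T'] at h1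
    exact hf.mul h1
  have hfA' : f * E.R ^ T' ∉ A.I := fun h => (hpr.mem_or_mem h).elim hfA fun h => E.R_not (hpr.mem_of_pow_mem _ h)
  obtain ⟨C, F, hF, hmain⟩ := Pool.Agent.Lib.MP_17a322_nt.SL.SL_finalV A ⊤ (MWA.MW A)
    hgr hr E.D ag (e + T' * E.d) (fun a l => G (ρ a) l) (fun a l => hGh _ l)
    (fun j l => ∑ c, if τ c = l then E.Λ (finProdFinEquiv.symm j).1 (finProdFinEquiv.symm j).2 c else 0)
    (fun j l => IsHomogeneous.sum _ _ _ fun c _ => by
      split_ifs
      · exact E.Λ_hom _ _ _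
      · exact isHomogeneous_zero _ _ _) S
    (fun v => Finset.univ.filter fun j : Fin (E.s * r) => (finProdFinEquiv.symm j).1 = ci v)
    (fun v => Finset.univ.filter fun j : Fin (E.s * r) => (finProdFinEquiv.symm j).1 = cf v)
    (fun v T hT _ => hind (ci v) T fun j hj => (Finset.mem_filter.1 (hT hj)).2)
    (fun v _ T hT _ => hind (cf v) T fun j hj => (Finset.mem_filter.1 (hT hj)).2)
    (f * E.R ^ T') hf' hfA' ε hε
  refine ⟨C, onM mo F * MvPolynomial.C D₀, ?_, ?_⟩
  · refine NF.mul' hC (R2_onM hC hmo _ (fun L _ _ _ P hP z hz => ?_) hF) (NF.cst' hC hDh hDA)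
    exact (hmem L P (hDgen L P hP) z).2 hz
  intro P y hX hne
  rw [UTA.val_mul, val_onM, val_C] at hne
  obtain ⟨hne1, hne2⟩ := mul_ne_zero_iff.1 hne
  have hy : ∀ i, y i ≠ 0 := hX.1
  have hZ : (fun c => mv (mo c) y) ≠ 0 := R2_ne hmo hy
  have hfibP : ∀ a, ∑ l, aeval (A.x P) (G (ρ a) l) * mv (mo l) y = 0 := by
    intro a
    have h1 := val_of_mem ((hG K (A.x P) (A.x_ne P)).2 (ρ a)) hX.2
    rw [map_sum] at h1
    rw [← h1]
    refine Finset.sum_congr rfl fun l _ => ?_
    rw [smul_eval, eval_monomial']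
  obtain ⟨h1, hf0, h2⟩ := hmain P (AddSubgroup.mem_top P) _ hZ hfibP hne1
  have hlam : ∀ (j : Fin (E.s * r)), ∑ l, aeval (A.x P) (∑ c, if τ c = l then
      E.Λ (finProdFinEquiv.symm j).1 (finProdFinEquiv.symm j).2 c else 0) * mv (mo l) y =
      ∑ c, aeval (A.x P) (E.Λ (finProdFinEquiv.symm j).1 (finProdFinEquiv.symm j).2 c) * mv (E.mon c) y := by
    intro j
    simp only [map_sum, apply_ite (aeval (A.x P)), map_zero, Finset.sum_mul, ite_mul, zero_mul]
    rw [Finset.sum_comm]
    refine Finset.sum_congr rfl fun c _ => ?_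
    rw [Finset.sum_eq_single (τ c)]
    · rw [if_pos rfl, hτ]
    · intro l _ hl
      rw [if_neg (Ne.symm hl)]
    · intro h
      exact absurd (Finset.mem_univ _) h
  rw [map_mul, map_pow] at hf0
  obtain ⟨hf1, hR1⟩ := mul_ne_zero_iff.1 hf0
  have hPl : UPE.hPl (Rel (fib H (A.x P)) M mo) =
      Pool.Agent.Lib.MP_17a322_nt.SL.hE A (fun a l => G (ρ a) l) P :=
    UPE.hPl_eq _ _ (hli K P hne2) fun Z => hmem K P hne2 Z
  -- one place
  have key : ∀ (v : AbsoluteValue K ℝ) (b : Fin E.s),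
      ∑ j ∈ Finset.univ.filter (fun j : Fin (E.s * r) => (finProdFinEquiv.symm j).1 = b),
          Pool.Agent.Lib.MP_17a322_nt.SL.lam A v E.D
            (fun l => ∑ c, if τ c = l then E.Λ (finProdFinEquiv.symm j).1 (finProdFinEquiv.symm j).2 c else 0) P
            (fun c => mv (mo c) y) +
        (((e + T' * E.d : ℕ) : ℝ) * Real.log (⨆ i, v (A.x P i)) -
          Real.log (v (aeval (A.x P) (f * E.R ^ T')))) =
      LS E v P y b + T' * LR E.d E.R v (A.x P) -
        r * (∑ i, (M i : ℝ) * Real.log (⨆ t, v (y i t)) - Real.log (⨆ c, v (mv (mo c) y))) + LR e f v (A.x P) := by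
    intro v b
    have h3 : ∑ j ∈ Finset.univ.filter (fun j : Fin (E.s * r) => (finProdFinEquiv.symm j).1 = b),
          Pool.Agent.Lib.MP_17a322_nt.SL.lam A v E.D
            (fun l => ∑ c, if τ c = l then E.Λ (finProdFinEquiv.symm j).1 (finProdFinEquiv.symm j).2 c else 0) P
            (fun c => mv (mo c) y) =
        ∑ l : Fin r, ((∑ j, (M j : ℝ) * Real.log (⨆ t, v (y j t)) + E.D * Real.log (⨆ a, v (A.x P a)) -
          Real.log (v (∑ c, aeval (A.x P) (E.Λ b l c) * mv (E.mon c) y))) -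
        (∑ i, (M i : ℝ) * Real.log (⨆ t, v (y i t)) - Real.log (⨆ c, v (mv (mo c) y)))) := by
      symm
      refine Finset.sum_bij (fun l _ => finProdFinEquiv (b, l)) (fun l _ => ?_) (fun l _ l' _ h => ?_)
        (fun j hj => ?_) fun l _ => ?_
      · rw [Finset.mem_filter]
        exact ⟨Finset.mem_univ _, by rw [Equiv.symm_apply_apply]⟩
      · exact (Prod.mk.inj (finProdFinEquiv.injective h)).2
      · rw [Finset.mem_filter] at hj
        refine ⟨(finProdFinEquiv.symm j).2, Finset.mem_univ _, ?_⟩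
        rw [← hj.2]
        exact finProdFinEquiv.apply_symm_apply j
      · unfold Pool.Agent.Lib.MP_17a322_nt.SL.lam
        rw [hlam, Equiv.symm_apply_apply]
        ring
    have h6 : ((e + T' * E.d : ℕ) : ℝ) * Real.log (⨆ i, v (A.x P i)) -
          Real.log (v (aeval (A.x P) (f * E.R ^ T'))) = T' * LR E.d E.R v (A.x P) + LR e f v (A.x P) := by
      have h7 : v (aeval (A.x P) f) ≠ 0 := (AbsoluteValue.ne_zero_iff v).2 hf1
      have h8 : v (aeval (A.x P) E.R) ^ T' ≠ 0 := by
        rw [← map_pow]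
        exact (AbsoluteValue.ne_zero_iff v).2 hR1
      rw [map_mul, map_pow, map_mul, map_pow, Real.log_mul h7 h8, Real.log_pow, LR, LR]
      push_cast
      ring
    rw [h3, h6, Finset.sum_sub_distrib, Finset.sum_const, Finset.card_univ, Fintype.card_fin, nsmul_eq_mul, LS]
    ring
  have h8 : ∀ (v : InfinitePlace K) l, ∑ c, aeval (A.x P) (E.Λ (ci v) l c) * mv (E.mon c) y ≠ 0 := by
    intro v l
    have h9 := h1 (finProdFinEquiv (ci v, l)) (Or.inl ⟨v, by
      rw [Finset.mem_filter]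
      exact ⟨Finset.mem_univ _, by rw [Equiv.symm_apply_apply]⟩⟩)
    rw [hlam, Equiv.symm_apply_apply] at h9
    exact h9
  have h9 : ∀ v ∈ S, ∀ l, ∑ c, aeval (A.x P) (E.Λ (cf v) l c) * mv (E.mon c) y ≠ 0 := by
    intro v hv l
    have h9 := h1 (finProdFinEquiv (cf v, l)) (Or.inr ⟨v, hv, by
      rw [Finset.mem_filter]
      exact ⟨Finset.mem_univ _, by rw [Equiv.symm_apply_apply]⟩⟩)
    rw [hlam, Equiv.symm_apply_apply] at h9
    exact h9
  refine ⟨hf1, h8, h9, ?_⟩
  rw [hPl]
  have h10 := Finset.sum_congr rfl fun (v : InfinitePlace K) (_ : v ∈ Finset.univ) =>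
    congrArg (HMul.hMul (v.mult : ℝ)) (key v.val (ci v))
  have h11 := Finset.sum_congr rfl fun (v : FinitePlace K) (_ : v ∈ S) => key v.val (cf v)
  have h12 := height_mv hdeg hy hZ S
  have h13 : 0 ≤ ∑ v : InfinitePlace K, (v.mult : ℝ) *
      (∑ i, (M i : ℝ) * Real.log (⨆ t, v.val (y i t)) - Real.log (⨆ c, v.val (mv (mo c) y))) :=
    Finset.sum_nonneg fun v _ => mul_nonneg (Nat.cast_nonneg _) (sub_nonneg.2 (mv_le v.val hdeg hy hZ))
  have h14 : 0 ≤ ∑ v ∈ S, (∑ i, (M i : ℝ) * Real.log (⨆ t, v.val (y i t)) -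
      Real.log (⨆ c, v.val (mv (mo c) y))) :=
    Finset.sum_nonneg fun v _ => sub_nonneg.2 (mv_le v.val hdeg hy hZ)
  have h15 : logHeight (fun c => mv (mo c) y) ≤ ∑ i, (M i : ℝ) * logHeight (y i) := by
    linarith
  have h16 := mul_le_mul_of_nonneg_left h15 hε.le
  have h17 := mul_le_mul_of_nonneg_left h12 (Nat.cast_nonneg (α := ℝ) r)
  rw [R2_sum, R2_sum2] at h10
  rw [R2_sum', Finset.sum_add_distrib] at h11
  have h2' : (∑ v : InfinitePlace K, (v.mult : ℝ) *
        ∑ j ∈ Finset.univ.filter (fun j : Fin (E.s * r) => (finProdFinEquiv.symm j).1 = ci v),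
          Pool.Agent.Lib.MP_17a322_nt.SL.lam A v.val E.D
            (fun l => ∑ c, if τ c = l then E.Λ (finProdFinEquiv.symm j).1 (finProdFinEquiv.symm j).2 c else 0) P
            (fun c => mv (mo c) y)) +
      (∑ v ∈ S, ∑ j ∈ Finset.univ.filter (fun j : Fin (E.s * r) => (finProdFinEquiv.symm j).1 = cf v),
          Pool.Agent.Lib.MP_17a322_nt.SL.lam A v.val E.D
            (fun l => ∑ c, if τ c = l then E.Λ (finProdFinEquiv.symm j).1 (finProdFinEquiv.symm j).2 c else 0) P
            (fun c => mv (mo c) y)) +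
      ((∑ v : InfinitePlace K, (v.mult : ℝ) * (((e + T' * E.d : ℕ) : ℝ) * Real.log (⨆ i, v.val (A.x P i)) -
          Real.log (v.val (aeval (A.x P) (f * E.R ^ T'))))) +
        ∑ v ∈ S, (((e + T' * E.d : ℕ) : ℝ) * Real.log (⨆ i, v.val (A.x P i)) -
          Real.log (v.val (aeval (A.x P) (f * E.R ^ T'))))) +
      Pool.Agent.Lib.MP_17a322_nt.SL.hE A (fun a l => G (ρ a) l) P ≤
      r * logHeight (fun c => mv (mo c) y) +
        ε * (logHeight (fun c => mv (mo c) y) + logHeight (A.x P)) + C := h2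
  clear h2 hmain key
  linarith

end UTD
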