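import Pool.Agent.Lib.MP_17a322_ntTD.Defs
import Pool.Agent.Lib.MP_17a322_ntTA.B1
import Pool.Agent.Lib.MP_17a322_ntTA.B3

/-!
Leaf S1: the dimensions over `Ω` and over `k`.
-/

set_option autoImplicit false

universe u

namespace UTD

open MvPolynomial UTA

variable {k : Type u} [Field k] {q m κ : ℕ} {Ω : Type u} [Field Ω] [Algebra k Ω]

/-- A linear form acts on the coefficients. -/
noncomputable def S1_Z {σ : Type} (π : Ω →ₗ[k] k) (f : MvPolynomial σ Ω) : MvPolynomial σ k :=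
  ∑ μ ∈ f.support, monomial μ (π (coeff μ f))

theorem S1_coeff {σ : Type} (π : Ω →ₗ[k] k) (f : MvPolynomial σ Ω) (μ : σ →₀ ℕ) :
    coeff μ (S1_Z π f) = π (coeff μ f) := by
  classical
  rw [S1_Z, coeff_sum]
  simp only [coeff_monomial]
  rw [Finset.sum_ite_eq']
  split_ifs with h
  · rfl
  · rw [notMem_support_iff.1 h, map_zero]

theorem S1_mulZ {σ : Type} (π : Ω →ₗ[k] k) (f : MvPolynomial σ Ω) (g : MvPolynomial σ k) :
    S1_Z π (f * map (algebraMap k Ω) g) = S1_Z π f * g := by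
  classical
  ext μ
  rw [S1_coeff, coeff_mul, coeff_mul, map_sum]
  refine Finset.sum_congr rfl fun x _ => ?_
  rw [S1_coeff, coeff_map, mul_comm, ← Algebra.smul_def, map_smul, smul_eq_mul, mul_comm]

theorem S1_addZ {σ : Type} (π : Ω →ₗ[k] k) (f g : MvPolynomial σ Ω) :
    S1_Z π (f + g) = S1_Z π f + S1_Z π g := by
  ext μ
  rw [S1_coeff, coeff_add, coeff_add, map_add, S1_coeff, S1_coeff]

theorem S1_sumZ {σ ι : Type} (π : Ω →ₗ[k] k) (s : Finset ι) (f : ι → MvPolynomial σ Ω) :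
    S1_Z π (∑ i ∈ s, f i) = ∑ i ∈ s, S1_Z π (f i) := by
  ext μ
  rw [S1_coeff, coeff_sum, coeff_sum, map_sum]
  exact Finset.sum_congr rfl fun x _ => (S1_coeff π (f x) μ).symm

theorem S1_ideal (h : Fin κ → MvPolynomial (Fin q × Fin (m + 1)) k) (π : Ω →ₗ[k] k)
    {f : MvPolynomial (Fin q × Fin (m + 1)) Ω} (hf : f ∈ IΩ h Ω) : S1_Z π f ∈ Ik h := by
  obtain ⟨c, rfl⟩ := (Submodule.mem_span_range_iff_exists_fun _).1 hf
  rw [S1_sumZ]
  refine Ideal.sum_mem _ fun j _ => ?_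
  rw [smul_eq_mul, S1_mulZ]
  exact Ideal.mul_mem_left _ _ (Ideal.subset_span ⟨j, rfl⟩)

theorem S1_MH (π : Ω →ₗ[k] k) {M : Fin q → ℕ} {f : MvPolynomial (Fin q × Fin (m + 1)) Ω}
    (hf : f ∈ MH Ω m M) : S1_Z π f ∈ MH k m M := by
  intro μ hμ
  refine hf μ (mem_support_iff.2 fun h0 => ?_)
  rw [mem_support_iff, S1_coeff, h0, map_zero] at hμ
  exact hμ rfl

/-- `f` is a combination of the `S1_Z π f`. -/
theorem S1_exp {σ : Type} (f : MvPolynomial σ Ω) :
    ∃ (s : Finset (Module.Basis.ofVectorSpaceIndex k Ω)), f =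
      ∑ a ∈ s, (Module.Basis.ofVectorSpace k Ω a) •
        map (algebraMap k Ω) (S1_Z ((Module.Basis.ofVectorSpace k Ω).coord a) f) := by
  classical
  refine ⟨f.support.biUnion fun μ => ((Module.Basis.ofVectorSpace k Ω).repr (coeff μ f)).support, ?_⟩
  ext μ
  rw [coeff_sum]
  have h1 : ∀ a, coeff μ ((Module.Basis.ofVectorSpace k Ω a) •
      map (algebraMap k Ω) (S1_Z ((Module.Basis.ofVectorSpace k Ω).coord a) f)) =
      (Module.Basis.ofVectorSpace k Ω).repr (coeff μ f) a • (Module.Basis.ofVectorSpace k Ω a) := by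
    intro a
    rw [coeff_smul, coeff_map, S1_coeff, Module.Basis.coord_apply, smul_eq_mul, mul_comm, Algebra.smul_def]
  rw [Finset.sum_congr rfl fun a _ => h1 a]
  by_cases hμ : μ ∈ f.support
  · have h2 := (Module.Basis.ofVectorSpace k Ω).linearCombination_repr (coeff μ f)
    rw [Finsupp.linearCombination_apply, Finsupp.sum] at h2
    refine h2.symm.trans (Finset.sum_subset (Finset.subset_biUnion_of_mem
      (fun μ => ((Module.Basis.ofVectorSpace k Ω).repr (coeff μ f)).support) hμ) fun a _ ha => ?_)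
    rw [Finsupp.notMem_support_iff.1 ha, zero_smul]
  · rw [notMem_support_iff.1 hμ, map_zero]
    simp

theorem S1_map (h : Fin κ → MvPolynomial (Fin q × Fin (m + 1)) k)
    {f : MvPolynomial (Fin q × Fin (m + 1)) k} (hf : f ∈ Ik h) :
    map (algebraMap k Ω) f ∈ IΩ h Ω := (B1_mem h f).2 hf

/-- Dimensions do not grow from `k` to `Ω`. -/
theorem S1_le (h : Fin κ → MvPolynomial (Fin q × Fin (m + 1)) k)
    (A : Submodule k (MvPolynomial (Fin q × Fin (m + 1)) k))
    (B : Submodule Ω (MvPolynomial (Fin q × Fin (m + 1)) Ω))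
    (hAB : ∀ f ∈ B, ∀ π : Ω →ₗ[k] k, S1_Z π f ∈ A)
    (hA : FiniteDimensional k (A.map (Ideal.Quotient.mkₐ k (Ik h)).toLinearMap)) :
    Module.finrank Ω (B.map (Ideal.Quotient.mkₐ Ω (IΩ h Ω)).toLinearMap) ≤
      Module.finrank k (A.map (Ideal.Quotient.mkₐ k (Ik h)).toLinearMap) := by
  classical
  obtain ⟨b⟩ : Nonempty (Module.Basis (Fin (Module.finrank k
    (A.map (Ideal.Quotient.mkₐ k (Ik h)).toLinearMap))) k _) :=
    ⟨Module.finBasis k (A.map (Ideal.Quotient.mkₐ k (Ik h)).toLinearMap)⟩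
  choose g hg1 hg2 using fun c => (b c).2
  have hle : B.map (Ideal.Quotient.mkₐ Ω (IΩ h Ω)).toLinearMap ≤
      Submodule.span Ω (Set.range fun c => Ideal.Quotient.mkₐ Ω (IΩ h Ω) (map (algebraMap k Ω) (g c))) := by
    rintro _ ⟨f, hf, rfl⟩
    obtain ⟨s, hs⟩ := S1_exp (k := k) f
    rw [hs, map_sum]
    refine Submodule.sum_mem _ fun a _ => ?_
    rw [map_smul]
    refine Submodule.smul_mem _ _ ?_
    obtain ⟨z, hz⟩ : ∃ z, z = S1_Z ((Module.Basis.ofVectorSpace k Ω).coord a) f := ⟨_, rfl⟩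
    rw [← hz]
    have hzA : z ∈ A := by
      rw [hz]
      exact hAB f hf _
    obtain ⟨w, hw⟩ : ∃ w : A.map (Ideal.Quotient.mkₐ k (Ik h)).toLinearMap,
        w = ⟨_, Submodule.mem_map_of_mem hzA⟩ := ⟨_, rfl⟩
    have h1 : z - ∑ c, b.repr w c • g c ∈ Ik h := by
      have h2 := b.sum_repr w
      have h3 := congrArg Subtype.val h2
      rw [Submodule.coe_sum] at h3
      rw [← Ideal.Quotient.eq_zero_iff_mem, map_sub, map_sum, sub_eq_zero]
      have h4 : ∀ c, ((b.repr w c • b c : A.map (Ideal.Quotient.mkₐ k (Ik h)).toLinearMap) :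
          MvPolynomial (Fin q × Fin (m + 1)) k ⧸ Ik h) =
          Ideal.Quotient.mk (Ik h) (b.repr w c • g c) := by
        intro c
        rw [Submodule.coe_smul, ← hg2 c]
        rfl
      rw [Finset.sum_congr rfl fun c _ => h4 c] at h3
      rw [h3, hw]
      rfl
    have h5 := S1_map (Ω := Ω) h h1
    rw [map_sub, map_sum] at h5
    have h6 : Ideal.Quotient.mkₐ Ω (IΩ h Ω) (map (algebraMap k Ω) z) =
        ∑ c, algebraMap k Ω (b.repr w c) •
          Ideal.Quotient.mkₐ Ω (IΩ h Ω) (map (algebraMap k Ω) (g c)) := by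
      have h7 := Ideal.Quotient.eq_zero_iff_mem.2 h5
      rw [map_sub, map_sum, sub_eq_zero] at h7
      change Ideal.Quotient.mk (IΩ h Ω) (map (algebraMap k Ω) z) = _
      rw [h7]
      refine Finset.sum_congr rfl fun c _ => ?_
      rw [smul_eq_C_mul, map_mul, map_C, ← smul_eq_C_mul]
      exact map_smul (Ideal.Quotient.mkₐ Ω (IΩ h Ω)) _ _
    change Ideal.Quotient.mkₐ Ω (IΩ h Ω) (map (algebraMap k Ω) z) ∈ _
    rw [h6]
    exact Submodule.sum_mem _ fun c _ => Submodule.smul_mem _ _ (Submodule.subset_span ⟨c, rfl⟩)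
  have hfin : FiniteDimensional Ω (Submodule.span Ω (Set.range fun c =>
      Ideal.Quotient.mkₐ Ω (IΩ h Ω) (map (algebraMap k Ω) (g c)))) :=
    FiniteDimensional.span_of_finite Ω (Set.finite_range _)
  refine (Submodule.finrank_mono hle).trans ?_
  exact (finrank_range_le_card _).trans (by rw [Fintype.card_fin])

theorem S1_fd (h : Fin κ → MvPolynomial (Fin q × Fin (m + 1)) k) (M : Fin q → ℕ)
    (A : Submodule k (MvPolynomial (Fin q × Fin (m + 1)) k)) (hA : A ≤ MH k m M) :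
    FiniteDimensional k (A.map (Ideal.Quotient.mkₐ k (Ik h)).toLinearMap) := by
  have h1 := B3_fd (k := k) (m := m) M
  have h2 : FiniteDimensional k A := Submodule.finiteDimensional_of_le hA
  infer_instance

/-- **The dimension of the forms of multidegree `M`.** -/
theorem S1_hf (h : Fin κ → MvPolynomial (Fin q × Fin (m + 1)) k) (M : Fin q → ℕ) :
    hf (IΩ h Ω) M = hf (Ik h) M := by
  classical
  refine le_antisymm (S1_le h (MH k m M) (MH Ω m M) (fun f hf π => S1_MH π hf)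
    (S1_fd h M _ le_rfl)) ?_
  have hfd := S1_fd h M (MH k m M) le_rfl
  unfold hf
  obtain ⟨b⟩ : Nonempty (Module.Basis (Fin (Module.finrank k
    ((MH k m M).map (Ideal.Quotient.mkₐ k (Ik h)).toLinearMap))) k _) :=
    ⟨Module.finBasis k ((MH k m M).map (Ideal.Quotient.mkₐ k (Ik h)).toLinearMap)⟩
  choose g hg1 hg2 using fun c => (b c).2
  have hli : LinearIndependent Ω fun c => Ideal.Quotient.mkₐ Ω (IΩ h Ω) (map (algebraMap k Ω) (g c)) := by
    rw [Fintype.linearIndependent_iff]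
    intro u hu
    have h1 : ∑ c, u c • map (algebraMap k Ω) (g c) ∈ IΩ h Ω := by
      rw [← Ideal.Quotient.eq_zero_iff_mem, ← hu, map_sum]
      refine Finset.sum_congr rfl fun c _ => ?_
      exact map_smul (Ideal.Quotient.mkₐ Ω (IΩ h Ω)) _ _
    have h2 := B1_li h g (fun w hw => ?_) u h1
    · intro c
      rw [h2]
      rfl
    · have h3 : ∑ c, w c • b c = 0 := by
        apply Subtype.ext
        rw [Submodule.coe_sum]
        have h4 : ∀ c, ((w c • b c : (MH k m M).map (Ideal.Quotient.mkₐ k (Ik h)).toLinearMap) :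
            MvPolynomial (Fin q × Fin (m + 1)) k ⧸ Ik h) = Ideal.Quotient.mk (Ik h) (w c • g c) := by
          intro c
          rw [Submodule.coe_smul, ← hg2 c]
          rfl
        rw [Finset.sum_congr rfl fun c _ => h4 c, ← map_sum]
        exact Ideal.Quotient.eq_zero_iff_mem.2 hw
      funext c
      exact Fintype.linearIndependent_iff.1 b.linearIndependent w h3 c
  have hmem : ∀ c, Ideal.Quotient.mkₐ Ω (IΩ h Ω) (map (algebraMap k Ω) (g c)) ∈
      (MH Ω m M).map (Ideal.Quotient.mkₐ Ω (IΩ h Ω)).toLinearMap := by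
    intro c
    refine Submodule.mem_map_of_mem (p := MH Ω m M) (f := (Ideal.Quotient.mkₐ Ω (IΩ h Ω)).toLinearMap) ?_
    intro μ hμ
    refine hg1 c μ (mem_support_iff.2 fun h0 => ?_)
    rw [mem_support_iff, coeff_map, h0, map_zero] at hμ
    exact hμ rfl
  have hfdΩ : FiniteDimensional Ω ((MH Ω m M).map (Ideal.Quotient.mkₐ Ω (IΩ h Ω)).toLinearMap) := by
    have h1 := B3_fd (k := Ω) (m := m) M
    infer_instance
  have hli' : LinearIndependent Ω fun c => (⟨_, hmem c⟩ :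
      (MH Ω m M).map (Ideal.Quotient.mkₐ Ω (IΩ h Ω)).toLinearMap) := by
    refine LinearIndependent.of_comp
      ((MH Ω m M).map (Ideal.Quotient.mkₐ Ω (IΩ h Ω)).toLinearMap).subtype ?_
    exact hli
  have := hli'.fintype_card_le_finrank
  rwa [Fintype.card_fin] at this

theorem S1_sat (h : Fin κ → MvPolynomial (Fin q × Fin (m + 1)) k) (a : MvPolynomial (Fin q × Fin (m + 1)) k)
    (π : Ω →ₗ[k] k) {f : MvPolynomial (Fin q × Fin (m + 1)) Ω}
    (hf : f ∈ sat (IΩ h Ω ⊔ Ideal.span {map (algebraMap k Ω) a})) :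
    S1_Z π f ∈ sat (Ik h ⊔ Ideal.span {a}) := by
  intro l
  obtain ⟨c, hc⟩ := hf l
  refine ⟨c, ?_⟩
  have h1 : (∏ t, (X (t, l t) : MvPolynomial (Fin q × Fin (m + 1)) Ω)) ^ c =
      map (algebraMap k Ω) ((∏ t, X (t, l t)) ^ c) := by
    rw [map_pow, map_prod]
    simp only [map_X]
  rw [h1, mul_comm] at hc
  have h2 := S1_mulZ π f ((∏ t, X (t, l t)) ^ c)
  rw [mul_comm, ← h2]
  obtain ⟨x, hx, y, hy, hxy⟩ := Submodule.mem_sup.1 hc
  rw [← hxy, S1_addZ]
  obtain ⟨z, rfl⟩ := Ideal.mem_span_singleton'.1 hy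
  rw [S1_mulZ]
  exact Ideal.add_mem _ (Ideal.mem_sup_left (S1_ideal h π hx))
    (Ideal.mem_sup_right (Ideal.mul_mem_left _ _ (Ideal.subset_span rfl)))

/-- **The dimension of the forms which vanish to order `j`.** -/
theorem S1_ord (h : Fin κ → MvPolynomial (Fin q × Fin (m + 1)) k) (M : Fin q → ℕ) (i : Fin q) (j : ℕ) :
    ordD (IΩ h Ω) M i j ≤ ordD (Ik h) M i j := by
  refine S1_le h _ _ (fun f hf π => ⟨S1_MH π hf.1, ?_⟩) (S1_fd h M _ inf_le_left)
  have h1 := hf.2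
  have h2 : (X (i, 0) ^ j : MvPolynomial (Fin q × Fin (m + 1)) Ω) =
      map (algebraMap k Ω) (X (i, 0) ^ j) := by
    rw [map_pow, map_X]
  change f ∈ sat (IΩ h Ω ⊔ Ideal.span {X (i, 0) ^ j}) at h1
  rw [h2] at h1
  exact S1_sat h _ π h1

end UTD
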