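import Pool.Agent.Lib.MP_17a322_ntTA.B1
import Pool.Agent.Lib.MP_17a322_ntTA.B3
import Pool.Agent.Lib.MP_17a322_ntTC.CDefs

/-!
The chains of the forms which vanish to order at least `j`, and the dimension of the forms of multidegree `M`.
-/

set_option autoImplicit false

universe u

namespace UTD

open MvPolynomial UTA UTC

variable {k : Type u} [Field k] {q m κ : ℕ}

/-- The forms which vanish to order at least `j`. -/
noncomputable abbrev ordM (I : Ideal (MvPolynomial (Fin q × Fin (m + 1)) k)) (M : Fin q → ℕ) (i : Fin q)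
    (j : ℕ) : Submodule k (MvPolynomial (Fin q × Fin (m + 1)) k ⧸ I) :=
  ((MH k m M) ⊓ (sat (I ⊔ Ideal.span {X (i, 0) ^ j})).restrictScalars k).map
    (Ideal.Quotient.mkₐ k I).toLinearMap

theorem ordM_le (I : Ideal (MvPolynomial (Fin q × Fin (m + 1)) k)) (M : Fin q → ℕ) (i : Fin q) (j : ℕ) :
    ordM I M i j ≤ Vm I M :=
  Submodule.map_mono inf_le_left

/-- The chains of the forms which vanish to order at least `j`. -/
noncomputable def chainOrd (h : Fin κ → MvPolynomial (Fin q × Fin (m + 1)) k) (Q : Finset (Fin q))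
    (M : Fin q → ℕ) (J : ℕ) : ChainQ h Q M fun i => ∑ j ∈ Finset.Icc 1 J, ordD (Ik h) M i j where
  J := J
  G := fun _ i j => (ordM (Ik h) M i j).comap (Vm (Ik h) M).subtype
  G_zero := by
    intro _ i
    rw [eq_top_iff]
    rintro ⟨f, hf⟩ -
    rw [Submodule.mem_comap, Submodule.subtype_apply]
    obtain ⟨g, hg, rfl⟩ := hf
    refine ⟨g, ⟨hg, fun l => ⟨0, ?_⟩⟩, rfl⟩
    rw [pow_zero, Ideal.span_singleton_one, sup_top_eq]
    exact Submodule.mem_top
  G_dvd := by
    rintro lam i - j ⟨f, hf⟩ hf'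
    rw [Submodule.mem_comap, Submodule.subtype_apply] at hf'
    obtain ⟨g, ⟨-, hg⟩, rfl⟩ := hf'
    obtain ⟨c, hc⟩ := hg lam
    refine ⟨c, ?_⟩
    obtain ⟨a, ha, b, hb, hab⟩ := Submodule.mem_sup.1 hc
    obtain ⟨z, rfl⟩ := Ideal.mem_span_singleton'.1 hb
    refine ⟨Ideal.Quotient.mk (Ik h) z, ?_⟩
    have h1 : gc (Ik h) lam ^ c * (Ideal.Quotient.mkₐ k (Ik h)).toLinearMap g =
        Ideal.Quotient.mk (Ik h) ((∏ t, X (t, lam t)) ^ c * g) := by
      rw [map_mul, map_pow]
      rfl
    change gc (Ik h) lam ^ c * (Ideal.Quotient.mkₐ k (Ik h)).toLinearMap g = _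
    rw [h1, ← hab, map_add, Ideal.Quotient.eq_zero_iff_mem.2 ha, zero_add, map_mul, map_pow, mul_comm]
  W_le := by
    intro _ i _
    refine Finset.sum_le_sum fun j _ => le_of_eq ?_
    exact (LinearEquiv.finrank_eq (Submodule.comapSubtypeEquivOfLe (ordM_le (Ik h) M i j))).symm

/-- There is a form of multidegree `M` which is not in the ideal. -/
theorem hf_pos (h : Fin κ → MvPolynomial (Fin q × Fin (m + 1)) k) (hp : (Ik h).IsPrime)
    (hne : ∀ i, X (i, 0) ∉ Ik h) (M : Fin q → ℕ) : 0 < hf (Ik h) M := by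
  classical
  have h1 : (∏ i : Fin q, (X (i, 0) : MvPolynomial (Fin q × Fin (m + 1)) k) ^ M i) ∈ MH k m M := by
    have e1 : (∏ i : Fin q, (X (i, 0) : MvPolynomial (Fin q × Fin (m + 1)) k) ^ M i) =
        monomial (∑ i : Fin q, Finsupp.single (i, 0) (M i)) 1 := by
      rw [monomial_sum_one]
      exact Finset.prod_congr rfl fun i _ => X_pow_eq_monomial
    rw [e1]
    intro μ hμ i
    rw [mem_support_iff, coeff_monomial] at hμ
    have h2 : (∑ i : Fin q, Finsupp.single (i, 0) (M i)) = μ := by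
      by_contra h3
      rw [if_neg h3] at hμ
      exact hμ rfl
    rw [← h2]
    simp only [Finsupp.coe_finsetSum, Finset.sum_apply, Finsupp.single_apply, Prod.mk.injEq]
    rw [Finset.sum_comm, Finset.sum_eq_single i]
    · rw [Finset.sum_eq_single 0]
      · simp
      · intro b _ hb
        rw [if_neg]
        rintro ⟨-, h4⟩
        exact hb h4.symm
      · intro h4
        exact absurd (Finset.mem_univ _) h4
    · intro b _ hb
      refine Finset.sum_eq_zero fun l _ => ?_
      rw [if_neg]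
      rintro ⟨h4, -⟩
      exact hb h4
    · intro h4
      exact absurd (Finset.mem_univ _) h4
  have h2 : (∏ i : Fin q, (X (i, 0) : MvPolynomial (Fin q × Fin (m + 1)) k) ^ M i) ∉ Ik h := by
    intro h3
    rw [hp.prod_mem_iff] at h3
    obtain ⟨i, -, h4⟩ := h3
    exact hne i (hp.mem_of_pow_mem _ h4)
  have hfd : FiniteDimensional k (Vm (Ik h) M) := by
    have h3 := B3_fd (k := k) (m := m) M
    infer_instance
  have h3 : Nontrivial (Vm (Ik h) M) := by
    refine ⟨⟨0, ⟨_, Submodule.mem_map_of_mem h1⟩, fun h4 => h2 ?_⟩⟩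
    have h5 := congrArg Subtype.val h4
    exact Ideal.Quotient.eq_zero_iff_mem.1 h5.symm
  exact Module.finrank_pos

end UTD
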