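import Pool.Agent.Lib.MP_17a322_ntTA.C4
import Pool.Agent.Lib.MP_17a322_ntTC.K6t
import Pool.Agent.Lib.MP_17a322_ntTD.S1
import Pool.Agent.Lib.MP_17a322_ntTD.S2

/-!
The dimension of the space of forms of multidegree `M` is the same on all generic fibres.
-/

set_option autoImplicit false

universe u

namespace UTD

open MvPolynomial UTA UTC
open Pool.Agent.Lib.MP_17a322_nt.VA
open Pool.Agent.Lib.MP_17a322_nt.SL (Gen)

private theorem S3_le {K : Type u} [Field K] [CharZero K] {N q m κ : ℕ} {A : AV K N} (H : Fin κ → Fm K N q m)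
    (hH : ∀ j, ∃ a d, Mh (H j) a d) {Ω : Type u} [Field Ω] [IsAlgClosed Ω] [Algebra K Ω] (P₀ : A.Pts Ω)
    (hP₀ : Gen A P₀) {L : Type u} [Field L] [IsAlgClosed L] [Algebra K L] (P : A.Pts L) (hP : Gen A P)
    (M : Fin q → ℕ) : hf (fib H (A.x P₀)) M ≤ hf (fib H (A.x P)) M := by
  classical
  obtain ⟨h, hh, hI, -⟩ := C4_down H hH (A.x_ne P₀)
  obtain ⟨β⟩ := K6_bas A H hH P₀ hP₀ ∅ (fun J _ i hi => absurd hi (Finset.notMem_empty i)) h hh hI
    (chainOrd h ∅ M 0) 0
  rw [← hI, S1_hf]
  have hmem : ∀ c, Ideal.Quotient.mkₐ L (fib H (A.x P)) (monomial (β.mon c) 1) ∈ Vm (fib H (A.x P)) M := by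
    intro c
    refine Submodule.mem_map_of_mem (p := MH L m M)
      (f := (Ideal.Quotient.mkₐ L (fib H (A.x P))).toLinearMap) fun μ hμ i => ?_
    rw [mem_support_iff, coeff_monomial] at hμ
    have h1 : β.mon c = μ := by
      by_contra h2
      rw [if_neg h2] at hμ
      exact hμ rfl
    rw [← h1]
    exact β.mon_deg c i
  have hfd : FiniteDimensional L (Vm (fib H (A.x P)) M) := by
    have h1 := B3_fd (k := L) (m := m) M
    infer_instance
  have hli : LinearIndependent L fun c => (⟨_, hmem c⟩ : Vm (fib H (A.x P)) M) := by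
    rw [Fintype.linearIndependent_iff]
    intro u hu c
    refine congrFun (β.mon_li L P hP u ?_) c
    rw [← Ideal.Quotient.eq_zero_iff_mem]
    have h1 := congrArg Subtype.val hu
    rw [AddSubmonoidClass.coe_finsetSum] at h1
    change (Ideal.Quotient.mkₐ L (fib H (A.x P))) _ = 0
    rw [map_sum]
    refine Eq.trans (Finset.sum_congr rfl fun c _ => ?_) h1
    rw [map_smul]
    rfl
  have := hli.fintype_card_le_finrank
  rwa [Fintype.card_fin] at this

theorem S3_gen {K : Type u} [Field K] [CharZero K] {N q m κ : ℕ} {A : AV K N}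
    (H : Fin κ → Fm K N q m) (hH : ∀ j, ∃ a d, Mh (H j) a d) {L : Type u} [Field L] [IsAlgClosed L] [Algebra K L]
    (P : A.Pts L) (hP : Gen A P) {L' : Type u} [Field L'] [IsAlgClosed L'] [Algebra K L'] (P' : A.Pts L')
    (hP' : Gen A P') (M : Fin q → ℕ) : hf (fib H (A.x P)) M = hf (fib H (A.x P')) M :=
  le_antisymm (S3_le H hH P hP P' hP' M) (S3_le H hH P' hP' P hP M)

/-- The same over fields which are not algebraically closed. -/
theorem S3_hf {K : Type u} [Field K] {N q m κ : ℕ} (H : Fin κ → Fm K N q m) {L : Type u} [Field L] [Algebra K L]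
    (x : Fin (N + 1) → L) {Ω : Type u} [Field Ω] [Algebra K Ω] [Algebra L Ω] [IsScalarTower K L Ω]
    (M : Fin q → ℕ) : hf (fib H fun a => algebraMap L Ω (x a)) M = hf (fib H x) M := by
  have h1 : IΩ (fun j => sp (H j) x) Ω = fib H fun a => algebraMap L Ω (x a) := by
    unfold IΩ fib
    congr 1
    refine congrArg Set.range (funext fun j => ?_)
    have h2 : (algebraMap L Ω).comp (aeval x).toRingHom =
        (aeval (R := K) fun a => algebraMap L Ω (x a)).toRingHom := by
      refine ringHom_ext (fun c => ?_) fun a => ?_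
      · simp [IsScalarTower.algebraMap_apply K L Ω]
      · simp
    unfold sp
    rw [map_map, h2]
  rw [← h1, S1_hf]
  rfl

end UTD
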