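import Pool.Agent.Lib.MP_17a322_ntTA.E1
import Pool.Agent.Lib.MP_17a322_ntTA.EstG
import Pool.Agent.Lib.MP_17a322_ntTD.V2

/-!
The local estimates of the joint bases for several subfamilies of the divisors.
-/

set_option autoImplicit false

universe u

namespace UTD

open MvPolynomial UTA UTC
open Pool.Agent.Lib.MP_17a322_nt.VA Pool.Agent.Lib.MP_17a322_nt.SL

/-- Finitely many bases of the forms of multidegree `M` on the generic fibre with the local estimates: for every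
`a < s₀`, at every place one of them is small enough for the sum of the local heights with the weights `g a i`. -/
structure EstV {K : Type u} [Field K] {N q m κ s₀ : ℕ} (A : AV K N) (H : Fin κ → Fm K N q m)
    (M : Fin q → ℕ) (r : ℕ) (g : Fin s₀ → Fin q → ℝ) where
  mon : Fin r → (Fin q × Fin (m + 1)) →₀ ℕ
  deg : ∀ c i, ∑ l, mon c (i, l) = M i
  ind : ∀ (L : Type u) [Field L] [IsAlgClosed L] [Algebra K L] (P : A.Pts L), Gen A P →
    ∀ u : Fin r → L, ∑ c, u c • monomial (mon c) (1 : L) ∈ fib H (A.x P) → u = 0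
  s : ℕ
  D : ℕ
  Λ : Fin s → Fin r → Fin r → MvPolynomial (Fin (N + 1)) K
  Λ_hom : ∀ b l c, (Λ b l c).IsHomogeneous D
  Λ_det : ∀ b, (Matrix.of (Λ b)).det ∉ A.I
  d : ℕ
  R : MvPolynomial (Fin (N + 1)) K
  R_hom : R.IsHomogeneous d
  R_not : R ∉ A.I
  T : ℕ
  loc : ∀ v : AbsoluteValue K ℝ, ∃ C : ℝ, ∀ (P : A.Pts K) (y : Fin q → Fin (m + 1) → K),
    InX H (A.x P) y → aeval (A.x P) R ≠ 0 → (∀ i, y i 0 ≠ 0) → ∀ a : Fin s₀,
    ∃ b : Fin s, (∀ l, ∑ c, aeval (A.x P) (Λ b l c) * ∏ z, y z.1 z.2 ^ mon c z ≠ 0) →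
      r * ∑ i, g a i * lam v (y i) ≤
        ∑ l, (∑ j, M j * Real.log (⨆ t, v (y j t)) + D * Real.log (⨆ a, v (A.x P a)) -
          Real.log (v (∑ c, aeval (A.x P) (Λ b l c) * ∏ z, y z.1 z.2 ^ mon c z))) +
        T * LR d R v (A.x P) + C

private theorem V3_aux {K : Type u} [Field K] {N q m : ℕ} (v : AbsoluteValue K ℝ) (D E z : ℕ) (M t : Fin q → ℕ)
    (A : Finset (Fin q → ℕ)) (G : (Fin q → ℕ) → Fm K N q m)
    (hG : ∀ a ∈ A, (∀ i, a i ≤ M i + E) ∧ z ≤ ∑ i, t i * a i ∧ Mh (G a) D (fun i => M i + E - a i)) :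
    ∃ C : ℝ, ∀ (x : Fin (N + 1) → K) (y : Fin q → Fin (m + 1) → K) (u : Fin q → Fin (m + 1)) (w : K),
      w ≠ 0 → (∀ i, y i 0 ≠ 0) → (∀ i l, v (y i l) ≤ v (y i (u i))) →
      (∏ i, y i (u i)) ^ E * w = ∑ a ∈ A, (∏ i, y i 0 ^ a i) * val (G a) x y →
      ∀ Δ : ℝ, 0 ≤ Δ → (∀ i, t i * Δ ≤ lam v (y i)) →
        z * Δ ≤ ∑ j, M j * Real.log (⨆ l, v (y j l)) + D * Real.log (⨆ a, v (x a)) - Real.log (v w) + C := by
  classical
  have hbd : ∀ a, ∃ C : ℝ, 0 < C ∧ (a ∈ A → ∀ (x : Fin (N + 1) → K) (y : Fin q → Fin (m + 1) → K),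
      v (val (G a) x y) ≤ C * (⨆ i, v (x i)) ^ D * ∏ i, (⨆ l, v (y i l)) ^ (M i + E - a i)) := by
    intro a
    by_cases ha : a ∈ A
    · obtain ⟨C, hC, h⟩ := D0_bd (hG a ha).2.2 v
      exact ⟨C, hC, fun _ => h⟩
    · exact ⟨1, one_pos, fun h => absurd h ha⟩
  choose C hC hC' using hbd
  refine ⟨|Real.log (∑ a ∈ A, C a)|, fun x y u w hw hy hu hid Δ hΔ ht => ?_⟩
  -- the largest coordinates
  have hmax : ∀ i, (⨆ l, v (y i l)) = v (y i (u i)) := fun i =>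
    le_antisymm (ciSup_le (hu i)) (le_ciSup (f := fun l => v (y i l)) (Set.finite_range _).bddAbove (u i))
  have hy0 : ∀ i, 0 < v (y i 0) := fun i => (AbsoluteValue.pos_iff v).2 (hy i)
  have hS : ∀ i, 0 < ⨆ l, v (y i l) := fun i =>
    lt_of_lt_of_le (hy0 i) (le_ciSup (f := fun l => v (y i l)) (Set.finite_range _).bddAbove 0)
  have hX0 : 0 ≤ (⨆ i, v (x i)) ^ D := pow_nonneg (Real.iSup_nonneg fun i => v.nonneg _) _
  have hP : 0 < ∏ i, (⨆ l, v (y i l)) ^ (M i + E) := Finset.prod_pos fun i _ => pow_pos (hS i) _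
  -- one term
  have h1 : ∀ a ∈ A, v ((∏ i, y i 0 ^ a i) * val (G a) x y) ≤
      C a * ((⨆ i, v (x i)) ^ D * (∏ i, (⨆ l, v (y i l)) ^ (M i + E)) * Real.exp (-(z * Δ))) := by
    intro a ha
    rw [v.map_mul, map_prod]
    have h2 : ∏ i, v (y i 0 ^ a i) = (∏ i, (⨆ l, v (y i l)) ^ a i) * Real.exp (-∑ i, a i * lam v (y i)) := by
      rw [← Finset.sum_neg_distrib, Real.exp_sum, ← Finset.prod_mul_distrib]
      refine Finset.prod_congr rfl fun i _ => ?_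
      rw [map_pow, ← mul_neg, Real.exp_nat_mul, ← mul_pow]
      congr 1
      unfold UTA.lam
      rw [neg_sub, Real.exp_sub, Real.exp_log (hy0 i), Real.exp_log (hS i), mul_div_cancel₀ _ (hS i).ne']
    have h3 : (z : ℝ) * Δ ≤ ∑ i, a i * lam v (y i) := by
      have h4 : (z : ℝ) ≤ ∑ i, (t i : ℝ) * a i := by exact_mod_cast (hG a ha).2.1
      refine (mul_le_mul_of_nonneg_right h4 hΔ).trans ?_
      rw [Finset.sum_mul]
      refine Finset.sum_le_sum fun i _ => ?_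
      have h5 := mul_le_mul_of_nonneg_left (ht i) (Nat.cast_nonneg (a i) : (0 : ℝ) ≤ a i)
      linarith
    have h6 : Real.exp (-∑ i, a i * lam v (y i)) ≤ Real.exp (-(z * Δ)) := Real.exp_le_exp.2 (neg_le_neg h3)
    have h7 : (∏ i, (⨆ l, v (y i l)) ^ a i) * ∏ i, (⨆ l, v (y i l)) ^ (M i + E - a i) =
        ∏ i, (⨆ l, v (y i l)) ^ (M i + E) := by
      rw [← Finset.prod_mul_distrib]
      refine Finset.prod_congr rfl fun i _ => ?_
      rw [← pow_add, Nat.add_sub_cancel' ((hG a ha).1 i)]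
    have h8 : 0 ≤ ∏ i, (⨆ l, v (y i l)) ^ a i := Finset.prod_nonneg fun i _ => pow_nonneg (hS i).le _
    rw [h2]
    calc (∏ i, (⨆ l, v (y i l)) ^ a i) * Real.exp (-∑ i, a i * lam v (y i)) * v (val (G a) x y)
        ≤ (∏ i, (⨆ l, v (y i l)) ^ a i) * Real.exp (-(z * Δ)) *
          (C a * (⨆ i, v (x i)) ^ D * ∏ i, (⨆ l, v (y i l)) ^ (M i + E - a i)) :=
          mul_le_mul (mul_le_mul_of_nonneg_left h6 h8) (hC' a ha x y) (v.nonneg _)
            (mul_nonneg h8 (Real.exp_pos _).le)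
      _ = C a * ((⨆ i, v (x i)) ^ D * ((∏ i, (⨆ l, v (y i l)) ^ a i) * ∏ i, (⨆ l, v (y i l)) ^ (M i + E - a i)) *
          Real.exp (-(z * Δ))) := by ring
      _ = _ := by rw [h7]
  -- the sum
  have h9 : v w * ∏ i, (⨆ l, v (y i l)) ^ E ≤
      (∑ a ∈ A, C a) * ((⨆ i, v (x i)) ^ D * (∏ i, (⨆ l, v (y i l)) ^ (M i + E)) * Real.exp (-(z * Δ))) := by
    have h10 : v ((∏ i, y i (u i)) ^ E * w) = v w * ∏ i, (⨆ l, v (y i l)) ^ E := by
      rw [v.map_mul, map_pow, map_prod, mul_comm, ← Finset.prod_pow]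
      exact congrArg _ (Finset.prod_congr rfl fun i _ => by rw [hmax i])
    rw [← h10, hid, Finset.sum_mul]
    exact (v.sum_le _ _).trans (Finset.sum_le_sum h1)
  have hPE : 0 < ∏ i, (⨆ l, v (y i l)) ^ E := Finset.prod_pos fun i _ => pow_pos (hS i) _
  have hsplit : ∏ i, (⨆ l, v (y i l)) ^ (M i + E) = (∏ i, (⨆ l, v (y i l)) ^ M i) * ∏ i, (⨆ l, v (y i l)) ^ E := by
    rw [← Finset.prod_mul_distrib]
    exact Finset.prod_congr rfl fun i _ => pow_add _ _ _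
  have hPM : 0 < ∏ i, (⨆ l, v (y i l)) ^ M i := Finset.prod_pos fun i _ => pow_pos (hS i) _
  have h11 : v w ≤ (∑ a ∈ A, C a) * ((⨆ i, v (x i)) ^ D * (∏ i, (⨆ l, v (y i l)) ^ M i) * Real.exp (-(z * Δ))) := by
    refine le_of_mul_le_mul_right ?_ hPE
    refine h9.trans (le_of_eq ?_)
    rw [hsplit]
    ring
  have hw0 : 0 < v w := (AbsoluteValue.pos_iff v).2 hw
  have h12 : 0 < (∑ a ∈ A, C a) * ((⨆ i, v (x i)) ^ D * (∏ i, (⨆ l, v (y i l)) ^ M i) * Real.exp (-(z * Δ))) :=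
    lt_of_lt_of_le hw0 h11
  have hsC : 0 ≤ ∑ a ∈ A, C a := Finset.sum_nonneg fun a _ => (hC a).le
  have h13 : 0 < (⨆ i, v (x i)) ^ D * (∏ i, (⨆ l, v (y i l)) ^ M i) * Real.exp (-(z * Δ)) :=
    pos_of_mul_pos_right h12 hsC
  have h14 : 0 < ∑ a ∈ A, C a := pos_of_mul_pos_left h12 h13.le
  have h15 : 0 < (⨆ i, v (x i)) ^ D * ∏ i, (⨆ l, v (y i l)) ^ M i := pos_of_mul_pos_left h13 (Real.exp_pos _).le
  have h16 : 0 < (⨆ i, v (x i)) ^ D := pos_of_mul_pos_left h15 hPM.le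
  have h17 := Real.log_le_log hw0 h11
  rw [Real.log_mul h14.ne' h13.ne', Real.log_mul h15.ne' (Real.exp_pos _).ne', Real.log_mul h16.ne' hPM.ne', Real.log_exp,
    Real.log_pow, Real.log_prod (fun i _ => (pow_pos (hS i) _).ne')] at h17
  simp only [Real.log_pow] at h17
  have h18 := le_abs_self (Real.log (∑ a ∈ A, C a))
  linarith

theorem V3_loc {K : Type u} [Field K] {N q m κ s : ℕ} {A : AV K N} {H : Fin κ → Fm K N q m}
    {Q : Fin s → Finset (Fin q)} {M W : Fin q → ℕ} {B r : ℕ} (β : BasV A H Q M W B r) (v : AbsoluteValue K ℝ) :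
    ∃ C : ℝ, ∀ (P : A.Pts K) (y : Fin q → Fin (m + 1) → K), InX H (A.x P) y → aeval (A.x P) β.R ≠ 0 →
      (∀ i, y i 0 ≠ 0) → ∀ b : IndV s q m B, (∀ i, v (y i (b.2.2 i)) = ⨆ t, v (y i t)) →
      ∀ Δ : ℝ, 0 ≤ Δ → (∀ i ∈ Q b.1, (b.2.1 i : ℝ) * Δ ≤ lam v (y i)) →
      ∀ l, ∑ c, aeval (A.x P) (β.Λ b l c) * ∏ z, y z.1 z.2 ^ β.mon c z ≠ 0 →
        (β.x b l : ℝ) * Δ ≤ ∑ j, M j * Real.log (⨆ t, v (y j t)) + β.D * Real.log (⨆ a, v (A.x P a)) -
          Real.log (v (∑ c, aeval (A.x P) (β.Λ b l c) * ∏ z, y z.1 z.2 ^ β.mon c z)) + C := by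
  classical
  have haux : ∀ (b : IndV s q m B) (l : Fin r), ∃ C : ℝ, ∀ (x : Fin (N + 1) → K) (y : Fin q → Fin (m + 1) → K)
      (u : Fin q → Fin (m + 1)) (w : K),
      w ≠ 0 → (∀ i, y i 0 ≠ 0) → (∀ i l, v (y i l) ≤ v (y i (u i))) →
      (∏ i, y i (u i)) ^ β.E b l * w = ∑ a ∈ β.Ex b l, (∏ i, y i 0 ^ a i) * val (β.G b l a) x y →
      ∀ Δ : ℝ, 0 ≤ Δ → (∀ i, ((if i ∈ Q b.1 then (b.2.1 i : ℕ) else 0 : ℕ) : ℝ) * Δ ≤ lam v (y i)) →
        (β.x b l : ℝ) * Δ ≤ ∑ j, M j * Real.log (⨆ l, v (y j l)) + β.D * Real.log (⨆ a, v (x a)) - Real.log (v w) + C := by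
    intro b l
    refine V3_aux v β.D (β.E b l) (β.x b l) M (fun i => if i ∈ Q b.1 then (b.2.1 i : ℕ) else 0) (β.Ex b l) (β.G b l)
      fun a ha => ⟨β.Ex_le b l a ha, ?_, β.G_mh b l a ha⟩
    refine (β.Ex_w b l a ha).trans (le_of_eq ?_)
    rw [← Finset.sum_filter_add_sum_filter_not Finset.univ (fun i => i ∈ Q b.1), Finset.sum_eq_zero (s := Finset.univ.filter fun i => i ∉ Q b.1)
      (fun i hi => by rw [if_neg (Finset.mem_filter.1 hi).2, zero_mul]), add_zero, Finset.filter_mem_eq_inter, Finset.univ_inter]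
    exact Finset.sum_congr rfl fun i hi => by rw [if_pos hi]
  choose C hC using haux
  refine ⟨∑ b, ∑ l, |C b l|, fun P y hy hR hy0 b hb Δ hΔ hlam l hw => ?_⟩
  have h1 := hC b l (A.x P) y b.2.2 (∑ c, aeval (A.x P) (β.Λ b l c) * ∏ z, y z.1 z.2 ^ β.mon c z) hw hy0
    (fun i t => by
      rw [hb i]
      exact le_ciSup (f := fun t => v (y i t)) (Set.finite_range _).bddAbove t)
    (by
      have h2 := β.rel K P y hy.2 b l
      exact sub_eq_zero.1 ((mul_eq_zero.1 h2).resolve_left hR)) Δ hΔ (fun i => by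
      by_cases hi : i ∈ Q b.1
      · rw [if_pos hi]
        exact hlam i hi
      · rw [if_neg hi, Nat.cast_zero, zero_mul]
        unfold UTA.lam
        have h3 : 0 < v (y i 0) := (AbsoluteValue.pos_iff v).2 (hy0 i)
        exact sub_nonneg.2 (Real.log_le_log h3 (le_ciSup (f := fun t => v (y i t)) (Set.finite_range _).bddAbove 0)))
  have h4 : C b l ≤ ∑ b, ∑ l, |C b l| :=
    (le_abs_self _).trans ((Finset.single_le_sum (f := fun l => |C b l|) (fun l _ => abs_nonneg _) (Finset.mem_univ l)).trans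
      (Finset.single_le_sum (f := fun b => ∑ l, |C b l|) (fun b _ => Finset.sum_nonneg fun l _ => abs_nonneg _)
        (Finset.mem_univ b)))
  linarith

private theorem V3_det {K : Type u} [Field K] {N r : ℕ} (A : AV K N)
    (Λ : Fin r → Fin r → MvPolynomial (Fin (N + 1)) K)
    (h : ∀ (L : Type u) [Field L] [Algebra K L] (P : A.Pts L), Gen A P →
      LinearIndependent L fun l t => aeval (A.x P) (Λ l t)) : (Matrix.of Λ).det ∉ A.I := by
  intro hd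
  obtain ⟨L, _, _, _, P, hP⟩ := Pool.Agent.Lib.MP_17a322_nt.EF.T_gen A
  have h1 := A.x_isPt P _ hd
  rw [AlgHom.map_det] at h1
  have h4 : IsUnit ((aeval (A.x P) : MvPolynomial (Fin (N + 1)) K →ₐ[K] L).mapMatrix (Matrix.of Λ)) :=
    Matrix.linearIndependent_rows_iff_isUnit.1 (h L P hP)
  rw [Matrix.isUnit_iff_isUnit_det, h1] at h4
  exact not_isUnit_zero h4

theorem V3_est {K : Type u} [Field K] [CharZero K] {N q m κ s : ℕ} {A : AV K N} {H : Fin κ → Fm K N q m}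
    {Q : Fin s → Finset (Fin q)} {M W : Fin q → ℕ} {B r : ℕ} (hr : 0 < r) (β : BasV A H Q M W B r) (η : ℝ)
    (hB : ∀ k, ∀ lam : Fin q → ℝ, (∀ i, 0 ≤ lam i) → ∃ (t : Fin q → Fin (B + 1)) (Δ : ℝ), 0 ≤ Δ ∧
      (∀ i ∈ Q k, (t i : ℝ) * Δ ≤ lam i) ∧
      ∑ i ∈ Q k, ((W i : ℝ) - η) * lam i ≤ Δ * ((∑ i ∈ Q k, (t i : ℕ) * W i : ℕ) : ℝ)) :
    Nonempty (EstV A H M r fun k i => if i ∈ Q k then ((W i : ℝ) - η) / r else 0) := by
  classical
  obtain ⟨σ⟩ : Nonempty (Fin (Fintype.card (IndV s q m B)) ≃ IndV s q m B) := ⟨(Fintype.equivFin _).symm⟩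
  refine ⟨{
    mon := β.mon
    deg := β.mon_deg
    ind := β.mon_li
    s := Fintype.card (IndV s q m B)
    D := β.D
    Λ := fun b => β.Λ (σ b)
    Λ_hom := fun b => β.Λ_hom (σ b)
    Λ_det := fun b => V3_det A (β.Λ (σ b)) fun L _ _ P hP => β.Λ_li (σ b) L P hP
    d := β.ρ
    R := β.R
    R_hom := β.R_hom
    R_not := β.R_notMem
    T := 0
    loc := ?_ }⟩
  intro v
  obtain ⟨C₀, hC₀⟩ := V3_loc β v
  refine ⟨r * C₀, fun P y hy hR hy0 k => ?_⟩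
  obtain ⟨t, Δ, hΔ, h1, h2⟩ := hB k (fun i => lam v (y i)) fun i => E0_lam v (y i) (hy0 i)
  have hmax : ∀ i, ∃ a, v (y i a) = ⨆ t, v (y i t) := fun i =>
    Set.mem_range.1 ((Set.range_nonempty _).csSup_mem (Set.finite_range fun t => v (y i t)))
  choose a ha using hmax
  refine ⟨σ.symm (k, t, a), fun hne => ?_⟩
  rw [Equiv.apply_symm_apply] at hne ⊢
  have h3 : ∀ l, (β.x (k, t, a) l : ℝ) * Δ ≤
      (∑ j, M j * Real.log (⨆ t, v (y j t)) + β.D * Real.log (⨆ a, v (A.x P a)) -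
        Real.log (v (∑ c, aeval (A.x P) (β.Λ (k, t, a) l c) * ∏ z, y z.1 z.2 ^ β.mon c z))) + C₀ := fun l =>
    hC₀ P y hy hR hy0 (k, t, a) ha Δ hΔ h1 l (hne l)
  have h4 := Finset.sum_le_sum fun (l : Fin r) (_ : l ∈ Finset.univ) => h3 l
  rw [Finset.sum_add_distrib, Finset.sum_const, Finset.card_univ, Fintype.card_fin, nsmul_eq_mul,
    ← Finset.sum_mul] at h4
  have h5 : (r : ℝ) * ∑ i, (if i ∈ Q k then ((W i : ℝ) - η) / r else 0) * lam v (y i) =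
      ∑ i ∈ Q k, ((W i : ℝ) - η) * lam v (y i) := by
    have hr' : (r : ℝ) ≠ 0 := Nat.cast_ne_zero.2 hr.ne'
    rw [Finset.mul_sum, ← Finset.sum_filter_add_sum_filter_not Finset.univ (fun i => i ∈ Q k)]
    rw [Finset.sum_eq_zero (s := Finset.univ.filter fun i => ¬ i ∈ Q k) fun i hi => by
      rw [if_neg (Finset.mem_filter.1 hi).2, zero_mul, mul_zero]]
    rw [add_zero, Finset.filter_mem_eq_inter, Finset.univ_inter]
    refine Finset.sum_congr rfl fun i hi => ?_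
    rw [if_pos hi]
    field_simp
  have h6 : Δ * ((∑ i ∈ Q k, (t i : ℕ) * W i : ℕ) : ℝ) ≤ (∑ l, (β.x (k, t, a) l : ℝ)) * Δ := by
    rw [mul_comm]
    refine mul_le_mul_of_nonneg_right ?_ hΔ
    exact_mod_cast β.x_sum (k, t, a)
  rw [h5, Nat.cast_zero, zero_mul, add_zero]
  linarith

end UTD
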