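import Pool.Agent.Lib.MP_17a322_ntTD.R2
import Pool.Agent.Lib.MP_17a322_ntTD.V3

/-!
The inequality with the slope term: all choices of the bases, several subfamilies of the divisors.
-/

set_option autoImplicit false

universe u

namespace UTD

open MvPolynomial UTA Height NumberField
open Pool.Agent.Lib.MP_17a322_nt.VA
open Pool.Agent.Lib.MP_17a322_nt.SL (Gen)

/-- One of the subfamilies. -/
private def V4_G {K : Type u} [Field K] {N q m κ s₀ : ℕ} {A : AV K N} {H : Fin κ → Fm K N q m} {M : Fin q → ℕ}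
    {r : ℕ} {g : Fin s₀ → Fin q → ℝ} (E : EstV A H M r g) (k : Fin s₀) : EstG A H M r (g k) where
  mon := E.mon
  deg := E.deg
  ind := E.ind
  s := E.s
  D := E.D
  Λ := E.Λ
  Λ_hom := E.Λ_hom
  Λ_det := E.Λ_det
  d := E.d
  R := E.R
  R_hom := E.R_hom
  R_not := E.R_not
  T := E.T
  loc := fun v => by
    obtain ⟨C, hC⟩ := E.loc v
    exact ⟨C, fun P y hy hR hy0 => hC P y hy hR hy0 k⟩

/-- The inequality for the sum of the local heights with the weights `g i`, the vertical divisor `f = 0` and the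
height of the space of the relations. -/
theorem V4_core {K : Type u} [Field K] [NumberField K] {N q m κ s₀ : ℕ} (A : AV K N)
    (H : Fin κ → Fm K N q m) (hH : ∀ j, ∃ a d, Mh (H j) a d) (hC : Pr A H) {M : Fin q → ℕ} {r : ℕ}
    {g : Fin s₀ → Fin q → ℝ} (E : EstV A H M r g) (k₀ : Fin s₀) (hr : 0 < r)
    (hrk : ∀ (L : Type u) [Field L] [IsAlgClosed L] [Algebra K L] (P : A.Pts L), Gen A P →
      hf (fib H (A.x P)) M = r)
    {n : ℕ} {mo : Fin n → (Fin q × Fin (m + 1)) →₀ ℕ} (hmo : IsMon M mo)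
    {e : ℕ} (f : MvPolynomial (Fin (N + 1)) K) (hf : f.IsHomogeneous e) (hfA : f ∉ A.I)
    (S : Finset (FinitePlace K)) (ε : ℝ) (hε : 0 < ε) :
    ∃ (C : ℝ) (F : Fm K N q m), UTA.Exc A H F ∧
      ∀ (P : A.Pts K) (y : Fin q → Fin (m + 1) → K), InX H (A.x P) y → val F (A.x P) y ≠ 0 →
        (∀ i, y i 0 ≠ 0) ∧ aeval (A.x P) f ≠ 0 ∧ ∀ (ki : InfinitePlace K → Fin s₀) (kf : FinitePlace K → Fin s₀),
        r * ((∑ v : InfinitePlace K, (v.mult : ℝ) * ∑ i, g (ki v) i * lam v.val (y i)) +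
            ∑ v ∈ S, ∑ i, g (kf v) i * lam v.val (y i)) +
            ((∑ v : InfinitePlace K, (v.mult : ℝ) * LR e f v.val (A.x P)) +
            ∑ v ∈ S, LR e f v.val (A.x P)) + UPE.hPl (Rel (fib H (A.x P)) M mo) ≤
          r * ∑ i, (M i : ℝ) * logHeight (y i) +
          ε * (∑ i, (M i : ℝ) * logHeight (y i) + logHeight (A.x P)) + C := by
  classical
  have hloc : ∀ v : AbsoluteValue K ℝ, ∃ C : ℝ, ∀ (P : A.Pts K) (y : Fin q → Fin (m + 1) → K),
      InX H (A.x P) y → aeval (A.x P) E.R ≠ 0 → (∀ i, y i 0 ≠ 0) → ∀ k : Fin s₀,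
      ∃ b : Fin E.s, (∀ l, ∑ c, aeval (A.x P) (E.Λ b l c) * mv (E.mon c) y ≠ 0) →
        (r : ℝ) * ∑ i, g k i * lam v (y i) ≤ LS (V4_G E k₀) v P y b + E.T * LR E.d E.R v (A.x P) + C := E.loc
  choose Cv hCv using hloc
  have hF0 : NF A H (MvPolynomial.C E.R * ∏ i, y0 K N m i : Fm K N q m) :=
    NF.mul' hC (NF.cst' hC E.R_hom E.R_not) (NF.prod' hC _ _ fun i _ => NF.y0' hC i)
  have hF0v : ∀ (P : A.Pts K) (y : Fin q → Fin (m + 1) → K),
      val (MvPolynomial.C E.R * ∏ i, y0 K N m i : Fm K N q m) (A.x P) y ≠ 0 →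
      aeval (A.x P) E.R ≠ 0 ∧ ∀ i, y i 0 ≠ 0 := by
    intro P y hne
    rw [val_mul, val_prod, val_C] at hne
    obtain ⟨h3, h5⟩ := mul_ne_zero_iff.1 hne
    refine ⟨h3, fun i => ?_⟩
    have h7 := Finset.prod_ne_zero_iff.1 h5 i (Finset.mem_univ i)
    rw [val_y0] at h7
    exact h7
  rcases Nat.eq_zero_or_pos E.s with hs | hs
  · refine ⟨0, _, NF.exc' hC hF0, fun P y hX hne => ?_⟩
    obtain ⟨h1, h2⟩ := hF0v P y hne
    obtain ⟨v⟩ : Nonempty (InfinitePlace K) := inferInstance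
    obtain ⟨b, -⟩ := hCv v.val P y hX h1 h2 k₀
    rw [hs] at b
    exact b.elim0
  · obtain ⟨cg, hcg⟩ : ∃ cg : (InfinitePlace K → Fin E.s) × (S → Fin E.s) → FinitePlace K → Fin E.s,
        ∀ c v (h : v ∈ S), cg c v = c.2 ⟨v, h⟩ :=
      ⟨fun c v => if h : v ∈ S then c.2 ⟨v, h⟩ else ⟨0, hs⟩, fun c v h => dif_pos h⟩
    choose C F hF hmain using fun c : (InfinitePlace K → Fin E.s) × (S → Fin E.s) =>
      R2_one A H hH hC (V4_G E k₀) hr hrk hmo f hf hfA S c.1 (cg c) E.T ε hε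
    obtain ⟨D, hD⟩ : ∃ D : ℝ, D = (∑ c, |C c|) + |(∑ v : InfinitePlace K, (v.mult : ℝ) * Cv v.val) +
      ∑ v ∈ S, Cv v.val| := ⟨_, rfl⟩
    refine ⟨D, (∏ c, F c) * (MvPolynomial.C E.R * ∏ i, y0 K N m i), NF.exc' hC ?_, ?_⟩
    · exact NF.mul' hC (NF.prod' hC _ _ fun c _ => hF c) hF0
    · intro P y hX hne
      rw [val_mul, val_prod] at hne
      obtain ⟨h1, h3⟩ := mul_ne_zero_iff.1 hne
      obtain ⟨hR, hy0⟩ := hF0v P y h3
      refine ⟨hy0, ?_⟩
      choose b hb using fun (v : AbsoluteValue K ℝ) (k : Fin s₀) => hCv v P y hX hR hy0 k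
      have hfP : aeval (A.x P) f ≠ 0 := by
        have h7 := Finset.prod_ne_zero_iff.1 h1 (fun _ => ⟨0, hs⟩, fun _ => ⟨0, hs⟩) (Finset.mem_univ _)
        exact (hmain _ P y hX h7).1
      refine ⟨hfP, fun ki kf => ?_⟩
      obtain ⟨c, hc⟩ : ∃ c : (InfinitePlace K → Fin E.s) × (S → Fin E.s),
        c = (fun v => b v.val (ki v), fun v => b v.1.val (kf v.1)) := ⟨_, rfl⟩
      have hc1 : ∀ v : InfinitePlace K, c.1 v = b v.val (ki v) := fun v => by rw [hc]
      have hc2 : ∀ v : S, c.2 v = b v.1.val (kf v.1) := fun v => by rw [hc]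
      have h7 := Finset.prod_ne_zero_iff.1 h1 c (Finset.mem_univ c)
      obtain ⟨-, h8, h9, h10⟩ := hmain c P y hX h7
      have h11 : ∀ v : InfinitePlace K, (r : ℝ) * ∑ i, g (ki v) i * lam v.val (y i) ≤
          LS (V4_G E k₀) v.val P y (c.1 v) + E.T * LR E.d E.R v.val (A.x P) + Cv v.val := by
        intro v
        rw [hc1]
        refine hb v.val (ki v) fun l => ?_
        rw [← hc1]
        exact h8 v l
      have h12 : ∀ v ∈ S, (r : ℝ) * ∑ i, g (kf v) i * lam v.val (y i) ≤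
          LS (V4_G E k₀) v.val P y (cg c v) +
            E.T * LR E.d E.R v.val (A.x P) + Cv v.val := by
        intro v hv
        have h13 : cg c v = b v.val (kf v) := by
          rw [hcg c v hv, hc2]
        rw [h13]
        refine hb v.val (kf v) fun l => ?_
        rw [← h13]
        exact h9 v hv l
      have h13 := Finset.sum_le_sum fun (v : InfinitePlace K) (_ : v ∈ Finset.univ) =>
        mul_le_mul_of_nonneg_left (h11 v) (Nat.cast_nonneg (α := ℝ) v.mult)
      have h14 := Finset.sum_le_sum h12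
      have h15 : ∑ v : InfinitePlace K, (v.mult : ℝ) * (LS (V4_G E k₀) v.val P y (c.1 v) +
          E.T * LR E.d E.R v.val (A.x P) + Cv v.val) =
          (∑ v : InfinitePlace K, (v.mult : ℝ) * LS (V4_G E k₀) v.val P y (c.1 v)) +
            E.T * (∑ v : InfinitePlace K, (v.mult : ℝ) * LR E.d E.R v.val (A.x P)) +
            ∑ v : InfinitePlace K, (v.mult : ℝ) * Cv v.val := by
        rw [Finset.mul_sum, ← Finset.sum_add_distrib, ← Finset.sum_add_distrib]
        exact Finset.sum_congr rfl fun v _ => by ring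
      rw [h15] at h13
      have h15' : ∑ v ∈ S, (LS (V4_G E k₀) v.val P y (cg c v) +
            E.T * LR E.d E.R v.val (A.x P) + Cv v.val) =
          (∑ v ∈ S, LS (V4_G E k₀) v.val P y (cg c v)) +
            E.T * (∑ v ∈ S, LR E.d E.R v.val (A.x P)) + ∑ v ∈ S, Cv v.val := by
        rw [Finset.mul_sum, ← Finset.sum_add_distrib, ← Finset.sum_add_distrib]
      rw [h15'] at h14
      have h16 : (r : ℝ) * ((∑ v : InfinitePlace K, (v.mult : ℝ) * ∑ i, g (ki v) i * lam v.val (y i)) +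
            ∑ v ∈ S, ∑ i, g (kf v) i * lam v.val (y i)) =
          (∑ v : InfinitePlace K, (v.mult : ℝ) * ((r : ℝ) * ∑ i, g (ki v) i * lam v.val (y i))) +
            ∑ v ∈ S, (r : ℝ) * ∑ i, g (kf v) i * lam v.val (y i) := by
        rw [mul_add, Finset.mul_sum, Finset.mul_sum]
        congr 1
        exact Finset.sum_congr rfl fun v _ => by ring
      obtain ⟨X, hX'⟩ : ∃ X : ℝ, X = ∑ i, (M i : ℝ) * logHeight (y i) := ⟨_, rfl⟩
      have hX0 : 0 ≤ X := by
        rw [hX']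
        exact Finset.sum_nonneg fun i _ => mul_nonneg (Nat.cast_nonneg _) (logHeight_nonneg _)
      have hP0 : 0 ≤ logHeight (A.x P) := logHeight_nonneg _
      have h17 : C c ≤ ∑ c, |C c| :=
        (le_abs_self _).trans (Finset.single_le_sum (f := fun c => |C c|) (fun c _ => abs_nonneg _)
          (Finset.mem_univ c))
      have h18 := le_abs_self ((∑ v : InfinitePlace K, (v.mult : ℝ) * Cv v.val) + ∑ v ∈ S, Cv v.val)
      have h10' : ((∑ v : InfinitePlace K, (v.mult : ℝ) * LS (V4_G E k₀) v.val P y (c.1 v)) +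
            ∑ v ∈ S, LS (V4_G E k₀) v.val P y (cg c v)) +
          E.T * ((∑ v : InfinitePlace K, (v.mult : ℝ) * LR E.d E.R v.val (A.x P)) +
            ∑ v ∈ S, LR E.d E.R v.val (A.x P)) +
          ((∑ v : InfinitePlace K, (v.mult : ℝ) * LR e f v.val (A.x P)) +
            ∑ v ∈ S, LR e f v.val (A.x P)) +
          UPE.hPl (Rel (fib H (A.x P)) M mo) ≤
          r * ∑ i, (M i : ℝ) * logHeight (y i) +
            ε * (∑ i, (M i : ℝ) * logHeight (y i) + logHeight (A.x P)) + C c := h10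
      rw [← hX'] at h10' ⊢
      rw [h16, hD]
      linarith

end UTD
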