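import Pool.Agent.Lib.MP_17a322_ntTA.C4
import Pool.Agent.Lib.MP_17a322_ntTA.Y3
import Pool.Agent.Lib.MP_17a322_ntTC.K9
import Pool.Agent.Lib.MP_17a322_ntTD.S1
import Pool.Agent.Lib.MP_17a322_ntTD.S2
import Pool.Agent.Lib.MP_17a322_ntTD.S3
import Pool.Agent.Lib.MP_17a322_ntTD.V4

/-!
The inequality with the orders of vanishing of the forms of one multidegree on the generic fibre; at every place any
subfamily of the divisors which meets properly.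
-/

set_option autoImplicit false

universe u

namespace UTD

open MvPolynomial Height NumberField UTA UTC
open Pool.Agent.Lib.MP_17a322_nt.VA
open Pool.Agent.Lib.MP_17a322_nt.SL (Gen)

private theorem V5_loc {q : ℕ} (Q : Finset (Fin q)) (W l : Fin q → ℝ) (r η : ℝ) (hr : 0 < r) (hη : 0 ≤ η)
    (hl : ∀ i, 0 ≤ l i) :
    ∑ i ∈ Q, W i * l i - η * ∑ i, l i ≤ r * ∑ i, (if i ∈ Q then (W i - η) / r else 0) * l i := by
  have e1 : r * ∑ i, (if i ∈ Q then (W i - η) / r else 0) * l i =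
      ∑ i ∈ Q, (W i * l i) - η * ∑ i ∈ Q, l i := by
    rw [← Finset.sum_filter_add_sum_filter_not Finset.univ (fun i => i ∈ Q),
      Finset.sum_eq_zero (s := Finset.univ.filter fun i => ¬ i ∈ Q) fun i hi => by
        rw [if_neg (Finset.mem_filter.1 hi).2, zero_mul], add_zero, Finset.filter_mem_eq_inter,
      Finset.univ_inter, Finset.mul_sum, Finset.mul_sum, ← Finset.sum_sub_distrib]
    refine Finset.sum_congr rfl fun i hi => ?_
    rw [if_pos hi]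
    field_simp
  have h1 : ∑ i ∈ Q, l i ≤ ∑ i, l i :=
    Finset.sum_le_sum_of_subset_of_nonneg (Finset.subset_univ Q) fun i _ _ => hl i
  have h2 := mul_le_mul_of_nonneg_left h1 hη
  rw [e1]
  linarith

private theorem V5_num {q : ℕ} (M h p : Fin q → ℝ) (r ε hx X Y a b C : ℝ)
    (hε : 0 < ε) (hM : ∀ i, 0 ≤ M i) (hp : ∀ i, 0 ≤ p i) (hph : ∀ i, p i ≤ h i) (hx0 : 0 ≤ hx)
    (hXY : Y - ε / 2 * ∑ i, p i ≤ r * X)
    (h1 : r * X + a + b ≤ r * ∑ i, M i * h i +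
      ε / (2 * (1 + ∑ i, M i)) * (∑ i, M i * h i + hx) + C) :
    Y + a + b ≤ r * ∑ i, M i * h i + ε * (∑ i, h i + hx) + C := by
  have hh : ∀ i, 0 ≤ h i := fun i => (hp i).trans (hph i)
  have hS : 0 ≤ ∑ i, M i := Finset.sum_nonneg fun i _ => hM i
  have h3 : ∑ i, p i ≤ ∑ i, h i := Finset.sum_le_sum fun i _ => hph i
  have h4 : ∑ i, M i * h i ≤ (∑ i, M i) * ∑ i, h i := by
    rw [Finset.mul_sum]
    refine Finset.sum_le_sum fun i _ => mul_le_mul_of_nonneg_right ?_ (hh i)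
    exact Finset.single_le_sum (f := M) (fun j _ => hM j) (Finset.mem_univ i)
  have hH : 0 ≤ ∑ i, h i := Finset.sum_nonneg fun i _ => hh i
  have h5 : ∑ i, M i * h i + hx ≤ (1 + ∑ i, M i) * (∑ i, h i + hx) := by
    nlinarith [mul_nonneg hS hx0]
  have h6 : ε / (2 * (1 + ∑ i, M i)) * (∑ i, M i * h i + hx) ≤ ε / 2 * (∑ i, h i + hx) := by
    have e2 : ε / (2 * (1 + ∑ i, M i)) * (∑ i, M i * h i + hx) =
        ε / 2 * ((∑ i, M i * h i + hx) / (1 + ∑ i, M i)) := by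
      field_simp
    rw [e2]
    refine mul_le_mul_of_nonneg_left ?_ (by linarith)
    rw [div_le_iff₀ (by linarith)]
    linarith
  have h7 : ε / 2 * ∑ i, p i ≤ ε / 2 * (∑ i, h i + hx) :=
    mul_le_mul_of_nonneg_left (by linarith) (by linarith)
  linarith

/-- **T4.** -/
theorem T4_max {K : Type u} [Field K] [NumberField K] {N q m κ : ℕ} (A : AV K N)
    (H : Fin κ → Fm K N q m) (hX : Vars A H ∅) {L₀ : Type u} [Field L₀]
    [IsAlgClosed L₀] [Algebra K L₀] (P₀ : A.Pts L₀) (hP₀ : Gen A P₀) (M : Fin q → ℕ) (J : ℕ)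
    {n : ℕ} {mo : Fin n → (Fin q × Fin (m + 1)) →₀ ℕ} (hmo : IsMon M mo)
    {e : ℕ} (f : MvPolynomial (Fin (N + 1)) K) (hf : f.IsHomogeneous e) (hfA : f ∉ A.I)
    (S : Finset (FinitePlace K)) (ε : ℝ) (hε : 0 < ε) :
    ∃ (C : ℝ) (F : Fm K N q m), UTA.Exc A H F ∧
      ∀ (P : A.Pts K) (y : Fin q → Fin (m + 1) → K), InX H (A.x P) y → val F (A.x P) y ≠ 0 →
        (∀ i, y i 0 ≠ 0) ∧ aeval (A.x P) f ≠ 0 ∧
        ∀ (Qi : InfinitePlace K → Finset (Fin q)) (Qf : FinitePlace K → Finset (Fin q)),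
          (∀ v, Vars A H (Qi v)) → (∀ v ∈ S, Vars A H (Qf v)) →
          ((∑ v : InfinitePlace K, (v.mult : ℝ) * ∑ i ∈ Qi v,
              ((∑ j ∈ Finset.Icc 1 J, ordD (fib H (A.x P₀)) M i j : ℕ) : ℝ) * lam v.val (y i)) +
            ∑ v ∈ S, ∑ i ∈ Qf v,
              ((∑ j ∈ Finset.Icc 1 J, ordD (fib H (A.x P₀)) M i j : ℕ) : ℝ) * lam v.val (y i)) +
          ((∑ v : InfinitePlace K, (v.mult : ℝ) * LR e f v.val (A.x P)) +
            ∑ v ∈ S, LR e f v.val (A.x P)) + UPE.hPl (Rel (fib H (A.x P)) M mo) ≤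
          UTA.hf (fib H (A.x P₀)) M * ∑ i, (M i : ℝ) * logHeight (y i) +
            ε * (∑ i, logHeight (y i) + logHeight (A.x P)) + C := by
  classical
  obtain ⟨h, hh, hI, -⟩ := C4_down H hX.hom (A.x_ne P₀)
  have hpr : (IΩ h L₀).IsPrime := by
    rw [hI]
    exact hX.prime L₀ P₀ hP₀
  have hne : ∀ i, X (i, 0) ∉ Ik h := by
    intro i hi
    have h1 := (B1_mem (Ω := L₀) h (X (i, 0))).2 hi
    rw [map_X, hI] at h1
    exact hX.ne L₀ P₀ hP₀ i h1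
  have hr := hf_pos h (B1_prime h hpr) hne M
  have h3 : UTA.hf (fib H (A.x P₀)) M = UTA.hf (Ik h) M := by rw [← hI, S1_hf]
  obtain ⟨W, hW⟩ : ∃ W : Fin q → ℕ, W = fun i => ∑ j ∈ Finset.Icc 1 J, ordD (Ik h) M i j := ⟨_, rfl⟩
  -- the subfamilies which meet properly
  obtain ⟨s₀, Q, hQ, hQ'⟩ : ∃ (s₀ : ℕ) (Q : Fin s₀ → Finset (Fin q)), (∀ k, Vars A H (Q k)) ∧
      ∀ Q', Vars A H Q' → ∃ k, Q k = Q' := by
    obtain ⟨T, hT⟩ : ∃ T : Finset (Finset (Fin q)), ∀ Q', Q' ∈ T ↔ Vars A H Q' :=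
      ⟨Finset.univ.filter fun Q' => Vars A H Q', fun Q' => by simp⟩
    refine ⟨T.card, fun k => (T.equivFin.symm k : Finset (Fin q)), fun k => ?_, fun Q' h' => ?_⟩
    · exact (hT _).1 (T.equivFin.symm k).2
    · refine ⟨T.equivFin ⟨Q', (hT _).2 h'⟩, ?_⟩
      change ((T.equivFin.symm (T.equivFin ⟨Q', (hT _).2 h'⟩) : T) : Finset (Fin q)) = Q'
      rw [Equiv.symm_apply_apply]
  obtain ⟨k₀, -⟩ := hQ' ∅ hX
  have C₀ : ∀ k, ChainQ h (Q k) M W := by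
    intro k
    rw [hW]
    exact chainOrd h (Q k) M J
  choose B hB using fun k => K9_grid (Q k) W (ε / 2) (by linarith)
  obtain ⟨B', hB'⟩ : ∃ B' : ℕ, ∀ k, B k ≤ B' := ⟨∑ k, B k, fun k =>
    Finset.single_le_sum (f := B) (fun _ _ => Nat.zero_le _) (Finset.mem_univ k)⟩
  have hB2 : ∀ k, ∀ lam : Fin q → ℝ, (∀ i, 0 ≤ lam i) → ∃ (t : Fin q → Fin (B' + 1)) (Δ : ℝ), 0 ≤ Δ ∧
      (∀ i ∈ Q k, (t i : ℝ) * Δ ≤ lam i) ∧
      ∑ i ∈ Q k, ((W i : ℝ) - ε / 2) * lam i ≤ Δ * ((∑ i ∈ Q k, (t i : ℕ) * W i : ℕ) : ℝ) := by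
    intro k l hl
    obtain ⟨t, Δ, h0, h1, h2⟩ := hB k l hl
    exact ⟨fun i => Fin.castLE (Nat.succ_le_succ (hB' k)) (t i), Δ, h0, h1, h2⟩
  obtain ⟨β⟩ := V2_bas A H hX.hom P₀ hP₀ Q (fun k => (hQ k).reg L₀ P₀ hP₀) h hh hI C₀ B'
  obtain ⟨E⟩ := V3_est hr β (ε / 2) hB2
  have hMS : (0 : ℝ) ≤ ∑ i, (M i : ℝ) := Finset.sum_nonneg fun i _ => Nat.cast_nonneg _
  have hrR : (0 : ℝ) < UTA.hf (Ik h) M := by exact_mod_cast hr
  have hrk : ∀ (L : Type u) [Field L] [IsAlgClosed L] [Algebra K L] (P : A.Pts L), Gen A P →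
      UTA.hf (fib H (A.x P)) M = UTA.hf (Ik h) M := by
    intro L _ _ _ P hP
    rw [← h3]
    exact S3_gen H hX.hom P hP P₀ hP₀ M
  obtain ⟨C, F, hF, hmain⟩ := V4_core A H hX.hom ⟨hX.prime, hX.ne⟩ E k₀ hr hrk hmo f hf hfA S
    (ε / (2 * (1 + ∑ i, (M i : ℝ)))) (by positivity)
  refine ⟨C, F, hF, fun P y hy hval => ?_⟩
  obtain ⟨h0, hf0, h1⟩ := hmain P y hy hval
  refine ⟨h0, hf0, fun Qi Qf hQi hQf => ?_⟩
  choose ki hki using fun v => hQ' (Qi v) (hQi v)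
  obtain ⟨kf, hkf⟩ : ∃ kf : FinitePlace K → Fin s₀, ∀ v ∈ S, Q (kf v) = Qf v := by
    refine ⟨fun v => if hv : v ∈ S then (hQ' (Qf v) (hQf v hv)).choose else k₀, fun v hv => ?_⟩
    change Q (if hv : v ∈ S then (hQ' (Qf v) (hQf v hv)).choose else k₀) = Qf v
    rw [dif_pos hv]
    exact (hQ' (Qf v) (hQf v hv)).choose_spec
  have hl : ∀ v : AbsoluteValue K ℝ, ∀ i, 0 ≤ lam v (y i) := fun v i => lam_nonneg v (h0 i)
  have hloc : ∀ (v : AbsoluteValue K ℝ) (k : Fin s₀), ∑ i ∈ Q k, (W i : ℝ) * lam v (y i) -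
      ε / 2 * ∑ i, lam v (y i) ≤ UTA.hf (Ik h) M *
        ∑ i, (if i ∈ Q k then ((W i : ℝ) - ε / 2) / (UTA.hf (Ik h) M : ℕ) else 0) * lam v (y i) :=
    fun v k => V5_loc (Q k) (fun i => (W i : ℝ)) (fun i => lam v (y i)) _ _ hrR (by linarith) (hl v)
  have h5 : ∀ i, ((∑ j ∈ Finset.Icc 1 J, ordD (fib H (A.x P₀)) M i j : ℕ) : ℝ) ≤ W i := by
    intro i
    rw [hW, ← hI]
    exact_mod_cast Finset.sum_le_sum fun j _ => S1_ord h M i j
  have h6 : ∀ (v : AbsoluteValue K ℝ) (Q' : Finset (Fin q)) (k : Fin s₀), Q k = Q' →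
      ∑ i ∈ Q', ((∑ j ∈ Finset.Icc 1 J, ordD (fib H (A.x P₀)) M i j : ℕ) : ℝ) * lam v (y i) -
        ε / 2 * ∑ i, lam v (y i) ≤ UTA.hf (Ik h) M *
          ∑ i, (if i ∈ Q k then ((W i : ℝ) - ε / 2) / (UTA.hf (Ik h) M : ℕ) else 0) * lam v (y i) := by
    rintro v Q' k rfl
    refine le_trans (sub_le_sub_right (Finset.sum_le_sum fun i _ => ?_) _) (hloc v k)
    exact mul_le_mul_of_nonneg_right (h5 i) (hl v i)
  have h7 := Finset.sum_le_sum fun (v : InfinitePlace K) (_ : v ∈ Finset.univ) =>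
    mul_le_mul_of_nonneg_left (h6 v.val (Qi v) (ki v) (hki v)) (Nat.cast_nonneg (α := ℝ) v.mult)
  have h8 := Finset.sum_le_sum fun (v : FinitePlace K) (hv : v ∈ S) =>
    h6 v.val (Qf v) (kf v) (hkf v hv)
  have h9 : ∑ i, prox S (y i) = (∑ v : InfinitePlace K, (v.mult : ℝ) * ∑ i, lam v.val (y i)) +
      ∑ v ∈ S, ∑ i, lam v.val (y i) := by
    unfold prox
    rw [Finset.sum_add_distrib, Finset.sum_comm, Finset.sum_comm (s := (Finset.univ : Finset (Fin q))) (t := S)]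
    congr 1
    exact Finset.sum_congr rfl fun v _ => (Finset.mul_sum _ _ _).symm
  rw [h3]
  refine V5_num (fun i => (M i : ℝ)) (fun i => logHeight (y i)) (fun i => prox S (y i))
    (UTA.hf (Ik h) M) ε (logHeight (A.x P)) _ _ _ _ C hε (fun i => Nat.cast_nonneg _)
    (fun i => prox_nonneg S (h0 i)) (fun i => prox_le S (h0 i)) (logHeight_nonneg _) ?_ (h1 ki kf)
  rw [h9, mul_add (ε / 2), mul_add (UTA.hf (Ik h) M : ℝ), Finset.mul_sum, Finset.mul_sum, Finset.mul_sum,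
    Finset.mul_sum]
  simp only [mul_sub, Finset.sum_sub_distrib] at h7
  simp only [Finset.sum_sub_distrib] at h8
  have e1 : ∑ v : InfinitePlace K, ε / 2 * ((v.mult : ℝ) * ∑ i, lam v.val (y i)) =
      ∑ v : InfinitePlace K, (v.mult : ℝ) * (ε / 2 * ∑ i, lam v.val (y i)) :=
    Finset.sum_congr rfl fun v _ => by ring
  have e2 : ∑ v : InfinitePlace K, (UTA.hf (Ik h) M : ℝ) * ((v.mult : ℝ) *
        ∑ i, (if i ∈ Q (ki v) then ((W i : ℝ) - ε / 2) / (UTA.hf (Ik h) M : ℕ) else 0) * lam v.val (y i)) =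
      ∑ v : InfinitePlace K, (v.mult : ℝ) * ((UTA.hf (Ik h) M : ℝ) *
        ∑ i, (if i ∈ Q (ki v) then ((W i : ℝ) - ε / 2) / (UTA.hf (Ik h) M : ℕ) else 0) * lam v.val (y i)) :=
    Finset.sum_congr rfl fun v _ => by ring
  rw [e1, e2]
  linarith

end UTD
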